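import Mathlib

/-!
The arithmetic of the telescoping argument.
-/

set_option autoImplicit false

namespace Pool.Agent.Y975.RD

/-- The starting number of alternations. -/
def kst (s0 T C : ℕ) : ℕ := 2 * s0 * T * (C + 1) + 5

/-- The final number of alternations. -/
def kend (s0 T C : ℕ) : ℕ := kst s0 T C + (2 * s0 * T * (C + 1) + 3)

/-- The starting bound. -/
def Bst (s0 T C h Mw : ℕ) : ℕ := kst s0 T C * (4 * h + 2 * T) + T * (C * (2 * Mw + 1) + 2 * Mw) + h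

theorem arith_aux (s0 T C c1 D L k0 i p Mw a : ℤ) (hs : 0 ≤ s0) (hT : 0 ≤ T) (hC : 0 ≤ C)
    (hc1 : 0 ≤ c1) (hD : 0 ≤ D) (hL : L = 2 * s0 * T * (C + 1)) (hk0 : k0 = L + 5)
    (hi : 0 ≤ i) (hi2 : i ≤ L + 3) (hMw : Mw ≤ p) (ha : a ≤ p + c1) :
    k0 * (4 * a + 2 * (s0 * T)) + (2 * s0 * T * (C + 1)) * Mw + s0 * T * C + a +
      i * (s0 * D + 3 * a + 2 * (s0 * T)) + s0 * D ≤
    p * (4 * k0 + L + 1 + 3 * i) + (k0 * (4 * c1 + 2 * (s0 * T)) + s0 * T * C + c1 +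
      (L + 3) * (s0 * D + 3 * c1 + 2 * (s0 * T)) + s0 * D) := by
  have hL0 : 0 ≤ L := by rw [hL]; positivity
  have hk00 : 0 ≤ k0 := by rw [hk0]; linarith
  rw [← hL]
  have h1 : k0 * a ≤ k0 * (p + c1) := mul_le_mul_of_nonneg_left ha hk00
  have h2 : i * a ≤ i * (p + c1) := mul_le_mul_of_nonneg_left ha hi
  have h3 : L * Mw ≤ L * p := mul_le_mul_of_nonneg_left hMw hL0
  have h4 : 0 ≤ s0 * D + 3 * c1 + 2 * (s0 * T) := by positivity
  have h5 : i * (s0 * D + 3 * c1 + 2 * (s0 * T)) ≤ (L + 3) * (s0 * D + 3 * c1 + 2 * (s0 * T)) :=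
    mul_le_mul_of_nonneg_right hi2 h4
  nlinarith [h1, h2, h3, h5]

theorem arith (s0 T C c β D : ℕ) :
    ∃ p0 : ℕ, ∀ p ≥ p0, ∀ n r h Mw : ℕ, n * s0 + r = p → r ≤ β + c + s0 →
      h = n + r * T → Mw ≤ p →
      (∀ k, kst s0 T C ≤ k → k ≤ kend s0 T C →
        (s0 : ℤ) * ((Bst s0 T C h Mw + (k - kst s0 T C) * (D + 3 * h + 2 * T) + D : ℕ) : ℤ) <
          (4 * k - 2) * (2 * p - 4 * c)) ∧
      (s0 : ℤ) * ((Bst s0 T C h Mw + (kend s0 T C - kst s0 T C) * (D + 3 * h + 2 * T) : ℕ) : ℤ) <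
          (4 * kend s0 T C - 1) * (p - 2 * c) := by
  obtain ⟨L, hL⟩ : ∃ L : ℤ, L = 2 * s0 * T * (C + 1) := ⟨_, rfl⟩
  obtain ⟨k0, hk0⟩ : ∃ k0 : ℤ, k0 = L + 5 := ⟨_, rfl⟩
  obtain ⟨c1, hc1⟩ : ∃ c1 : ℤ, c1 = s0 * (β + c + s0) * T := ⟨_, rfl⟩
  have hL0 : 0 ≤ L := by rw [hL]; positivity
  have hc10 : 0 ≤ c1 := by rw [hc1]; positivity
  obtain ⟨c5, hc5⟩ : ∃ c5 : ℤ, c5 = k0 * (4 * c1 + 2 * ((s0 : ℤ) * T)) + s0 * T * C + c1 +
      (L + 3) * (s0 * D + 3 * c1 + 2 * (s0 * T)) + s0 * D := ⟨_, rfl⟩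
  have hk00 : 0 ≤ k0 := by rw [hk0]; linarith
  have hc50 : 0 ≤ c5 := by rw [hc5]; positivity
  refine ⟨(c5 + 16 * (k0 + L + 3) * c + 1).toNat, fun p hp n r h Mw hn hr hh hMw => ?_⟩
  have hp' : c5 + 16 * (k0 + L + 3) * c + 1 ≤ (p : ℤ) := by
    have := Int.toNat_le.1 hp
    exact this
  have ha : (s0 : ℤ) * h ≤ p + c1 := by
    have h1 : (n : ℤ) * s0 + r = p := by exact_mod_cast hn
    have h2 : (r : ℤ) ≤ β + c + s0 := by exact_mod_cast hr
    have h3 : (h : ℤ) = n + r * T := by exact_mod_cast hh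
    rw [h3, hc1]
    have h4 : (s0 : ℤ) * T * r ≤ s0 * T * (β + c + s0) :=
      mul_le_mul_of_nonneg_left h2 (by positivity)
    nlinarith
  have hMw' : (Mw : ℤ) ≤ p := by exact_mod_cast hMw
  have ekst : ((kst s0 T C : ℕ) : ℤ) = k0 := by
    rw [hk0, hL]; unfold kst; push_cast; ring
  have main : ∀ i : ℕ, (i : ℤ) ≤ L + 3 →
      (s0 : ℤ) * ((Bst s0 T C h Mw + i * (D + 3 * h + 2 * T) + D : ℕ) : ℤ) ≤
        p * (4 * k0 + L + 1 + 3 * i) + c5 := by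
    intro i hi
    have h1 := arith_aux s0 T C c1 D L k0 i p Mw (s0 * h) (by positivity) (by positivity)
      (by positivity) hc10 (by positivity) hL hk0 (by positivity) hi hMw' ha
    rw [← hc5] at h1
    refine le_trans (le_of_eq ?_) h1
    unfold Bst
    push_cast
    rw [ekst]
    ring
  constructor
  · intro k hk1 hk2
    obtain ⟨i, rfl⟩ : ∃ i, k = kst s0 T C + i := ⟨k - kst s0 T C, by omega⟩
    rw [Nat.add_sub_cancel_left]
    have hi : (i : ℤ) ≤ L + 3 := by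
      unfold kend at hk2
      have h1 : i ≤ 2 * s0 * T * (C + 1) + 3 := by omega
      rw [hL]
      exact_mod_cast h1
    refine lt_of_le_of_lt (main i hi) ?_
    push_cast
    rw [ekst]
    have h2 : (0 : ℤ) ≤ i := by positivity
    have hc0 : (0 : ℤ) ≤ c := by positivity
    have h3 : (p : ℤ) * 1 ≤ p * (4 * k0 + 5 * i - L - 5) := by
      apply mul_le_mul_of_nonneg_left _ (by positivity)
      rw [hk0]; linarith
    have h4 : (16 * (k0 + i) - 8) * (c : ℤ) ≤ 16 * (k0 + L + 3) * c := by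
      apply mul_le_mul_of_nonneg_right _ hc0
      linarith
    nlinarith [h3, h4, hp']
  · have e : kend s0 T C - kst s0 T C = 2 * s0 * T * (C + 1) + 3 := by
      unfold kend; omega
    have hi : ((2 * s0 * T * (C + 1) + 3 : ℕ) : ℤ) = L + 3 := by
      rw [hL]; push_cast; ring
    rw [e]
    have h1 := main (2 * s0 * T * (C + 1) + 3) hi.le
    have h2 : (s0 : ℤ) * ((Bst s0 T C h Mw + (2 * s0 * T * (C + 1) + 3) *
        (D + 3 * h + 2 * T) : ℕ) : ℤ) ≤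
        (s0 : ℤ) * ((Bst s0 T C h Mw + (2 * s0 * T * (C + 1) + 3) *
        (D + 3 * h + 2 * T) + D : ℕ) : ℤ) := by
      apply mul_le_mul_of_nonneg_left _ (by positivity)
      push_cast
      linarith [show (0 : ℤ) ≤ D by positivity]
    refine lt_of_le_of_lt (h2.trans h1) ?_
    have ekend : ((kend s0 T C : ℕ) : ℤ) = k0 + L + 3 := by
      unfold kend
      push_cast
      rw [ekst, hL]; ring
    rw [ekend, hi]
    have hc0 : (0 : ℤ) ≤ c := by positivity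
    have h4 : (8 * (k0 + L + 3) - 2) * (c : ℤ) ≤ 16 * (k0 + L + 3) * c := by
      apply mul_le_mul_of_nonneg_right _ hc0
      linarith
    nlinarith [h4, hp']

end Pool.Agent.Y975.RD
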