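import Mathlib
import Pool.Agent.Helper376.Lac.OneEnd
import Pool.Agent.Helper376.Lac.Stage

/-!
Level groups: the wreath-like cocycles on the free group of rank two.
-/

set_option autoImplicit false

namespace Pool.Agent.Y975.RD

open Pool.Agent.Helper376.Lac (fa ft SF Win WinZ hF free_ext hF_fa hF_ft SF_one SF_inv)
open Pool.Agent.Helper376.DL (Ball ball_succ ball_mono ball_add ball_mono_succ)

/-- The free group of rank two. -/
abbrev F : Type := FreeGroup (Fin 2)

/-- The infinite dihedral group, as affine maps `y ↦ s y + c` of the integers. -/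
@[ext] structure Dh where
  s : ℤˣ
  c : ℤ

namespace Dh

instance : Mul Dh := ⟨fun x y => ⟨x.s * y.s, x.c + (x.s : ℤ) * y.c⟩⟩
instance : One Dh := ⟨⟨1, 0⟩⟩
instance : Inv Dh := ⟨fun x => ⟨x.s, -((x.s : ℤ) * x.c)⟩⟩

theorem mul_s (x y : Dh) : (x * y).s = x.s * y.s := rfl
theorem mul_c (x y : Dh) : (x * y).c = x.c + (x.s : ℤ) * y.c := rfl
theorem one_s : (1 : Dh).s = 1 := rfl
theorem one_c : (1 : Dh).c = 0 := rfl
theorem inv_s (x : Dh) : (x⁻¹).s = x.s := rfl
theorem inv_c (x : Dh) : (x⁻¹).c = -((x.s : ℤ) * x.c) := rfl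

theorem s_cases (x : Dh) : x.s = 1 ∨ x.s = -1 := Int.units_eq_one_or x.s

instance : Group Dh := Group.ofLeftAxioms
  (by
    intro x y z
    ext
    · simp only [mul_s, mul_assoc]
    · simp only [mul_s, mul_c]; push_cast; ring)
  (by
    intro x
    ext
    · simp only [mul_s, one_s, one_mul]
    · simp only [mul_c, one_s, one_c]; push_cast; ring)
  (by
    intro x
    ext
    · simp only [mul_s, inv_s, one_s]
      rcases s_cases x with h | h <;> rw [h] <;> rfl
    · simp only [mul_c, inv_s, inv_c, one_c]; ring)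

/-- Reflection at the left end. -/
def al : Dh := ⟨-1, 0⟩
/-- Reflection at the right end. -/
def be : Dh := ⟨-1, 2⟩

theorem al_sq : al * al = 1 := by ext <;> simp [mul_s, mul_c, al, one_s, one_c]
theorem be_sq : be * be = 1 := by ext <;> simp [mul_s, mul_c, be, one_s, one_c]
theorem al_inv : al⁻¹ = al := inv_eq_of_mul_eq_one_left al_sq
theorem be_inv : be⁻¹ = be := inv_eq_of_mul_eq_one_left be_sq

/-- Membership in the `k`-th rotation subgroup. -/
def Ink (k : ℕ) (x : Dh) : Prop := x.s = 1 ∧ (4 * (k : ℤ)) ∣ x.c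

theorem Ink_one (k : ℕ) : Ink k 1 := ⟨rfl, by rw [one_c]; exact dvd_zero _⟩

theorem Ink.mul {k : ℕ} {x y : Dh} (hx : Ink k x) (hy : Ink k y) : Ink k (x * y) := by
  refine ⟨by rw [mul_s, hx.1, hy.1, one_mul], ?_⟩
  rw [mul_c, hx.1]
  simpa using dvd_add hx.2 hy.2

theorem Ink.inv {k : ℕ} {x : Dh} (hx : Ink k x) : Ink k x⁻¹ := by
  refine ⟨by rw [inv_s, hx.1], ?_⟩
  rw [inv_c, hx.1]
  simpa using hx.2

theorem Ink.conj {k : ℕ} {x : Dh} (y : Dh) (hx : Ink k x) : Ink k (y * x * y⁻¹) := by
  obtain ⟨h1, h2⟩ := hx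
  refine ⟨?_, ?_⟩
  · rw [mul_s, mul_s, inv_s, h1]
    rcases s_cases y with h | h <;> rw [h] <;> rfl
  · rw [mul_c, mul_c, mul_s, inv_c, h1]
    rcases s_cases y with h | h
    · rw [h]
      simpa using h2
    · rw [h]
      simpa using h2

theorem Ink_zero {x : Dh} (h : Ink 0 x) : x = 1 := by
  obtain ⟨h1, h2⟩ := h
  ext
  · rw [h1]; rfl
  · rw [one_c]
    simpa using h2

/-- The action on the unfolded line, with left end `A` and width `w`. -/
def act (A w : ℤ) (x : Dh) (y : ℤ) : ℤ := A + (x.s : ℤ) * (y - A) + w * x.c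

theorem act_mul (A w : ℤ) (x y : Dh) (z : ℤ) : act A w (x * y) z = act A w x (act A w y z) := by
  simp only [act, mul_s, mul_c]; push_cast; ring

theorem act_one (A w z : ℤ) : act A w 1 z = z := by
  simp only [act, one_s, one_c]; push_cast; ring

theorem act_al (A w : ℤ) : act A w al A = A := by
  simp only [act, al]; push_cast; ring

theorem act_be (A w : ℤ) : act A w be (A + w) = A + w := by
  simp only [act, be]; push_cast; ring

theorem act_sub (A w : ℤ) (x : Dh) (y z : ℤ) :
    |act A w x y - act A w x z| = |y - z| := by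
  simp only [act]
  rcases s_cases x with h | h <;> rw [h]
  · congr 1; push_cast; ring
  · rw [← abs_neg]; congr 1; push_cast; ring

theorem ab_pow (k : ℕ) : (al * be) ^ k = ⟨1, -2 * k⟩ := by
  induction k with
  | zero => rfl
  | succ k ih =>
    rw [pow_succ, ih]
    ext
    · simp [mul_s, al, be]
    · simp [mul_s, mul_c, al, be]; ring

theorem ba_pow (k : ℕ) : (be * al) ^ k = ⟨1, 2 * k⟩ := by
  induction k with
  | zero => rfl
  | succ k ih =>
    rw [pow_succ, ih]
    ext
    · simp [mul_s, al, be]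
    · simp [mul_s, mul_c, al, be]; ring

end Dh

section wreath

variable {D : Type} [Group D]

/-- The shift on functions. -/
def shiftAut (D : Type) [Group D] (h : ℤ) : MulAut (ℤ → D) where
  toFun f := fun j => f (j - h)
  invFun f := fun j => f (j + h)
  left_inv f := by funext j; simp
  right_inv f := by funext j; simp
  map_mul' f g := rfl

/-- The shift action of the integers. -/
def shiftHom (D : Type) [Group D] : Multiplicative ℤ →* MulAut (ℤ → D) where
  toFun h := shiftAut D (Multiplicative.toAdd h)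
  map_one' := by
    ext f j
    simp [shiftAut]
  map_mul' g h := by
    ext f j
    simp only [shiftAut, MulAut.mul_apply, MulEquiv.coe_mk, Equiv.coe_fn_mk, toAdd_mul]
    congr 1
    ring

/-- The homomorphism to the unrestricted wreath product sending `a` to `u` and `t` to the shift. -/
def th (u : ℤ → D) : F →* (ℤ → D) ⋊[shiftHom D] Multiplicative ℤ :=
  FreeGroup.lift ![⟨u, 1⟩, ⟨1, Multiplicative.ofAdd 1⟩]

/-- The height. -/
def H (w : F) : ℤ := Multiplicative.toAdd (hF w)

theorem H_mul (v w : F) : H (v * w) = H v + H w := by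
  unfold H; rw [map_mul, toAdd_mul]

theorem H_one : H 1 = 0 := by unfold H; rw [map_one, toAdd_one]

theorem H_inv (v : F) : H v⁻¹ = - H v := by
  unfold H; rw [map_inv, toAdd_inv]

theorem H_fa : H fa = 0 := by unfold H; rw [hF_fa, toAdd_one]

theorem H_ft : H ft = 1 := by unfold H; rw [hF_ft, toAdd_ofAdd]

theorem H_pow (v : F) (n : ℕ) : H (v ^ n) = n * H v := by
  induction n with
  | zero => simp [H_one]
  | succ n ih => rw [pow_succ, H_mul, ih]; push_cast; ring

theorem H_ft_zpow (n : ℤ) : H (ft ^ n) = n := by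
  unfold H; rw [map_zpow, hF_ft, ← ofAdd_zsmul]; simp

theorem th_right (u : ℤ → D) (w : F) : (th u w).right = hF w := by
  have h : (SemidirectProduct.rightHom).comp (th u) = hF := by
    apply free_ext
    · simp [th, fa, hF]
    · simp [th, ft, hF]
  have := congrArg (fun f => f w) h
  simpa using this

/-- The cocycle. -/
def co (u : ℤ → D) (w : F) (j : ℤ) : D := (th u w).left j

theorem co_mul (u : ℤ → D) (v w : F) (j : ℤ) :
    co u (v * w) j = co u v j * co u w (j - H v) := by
  unfold co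
  rw [map_mul, SemidirectProduct.mul_left, th_right]
  rfl

theorem co_one (u : ℤ → D) (j : ℤ) : co u 1 j = 1 := by
  unfold co; rw [map_one]; rfl

theorem co_inv (u : ℤ → D) (w : F) (j : ℤ) : co u w⁻¹ j = (co u w (j + H w))⁻¹ := by
  have h := co_mul u w⁻¹ w j
  rw [inv_mul_cancel, co_one, H_inv, sub_neg_eq_add] at h
  exact eq_inv_of_mul_eq_one_left h.symm

theorem co_fa (u : ℤ → D) (j : ℤ) : co u fa j = u j := by
  simp [co, th, fa]

theorem co_ft (u : ℤ → D) (j : ℤ) : co u ft j = 1 := by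
  simp [co, th, ft]

theorem co_ft_zpow (u : ℤ → D) (n j : ℤ) : co u (ft ^ n) j = 1 := by
  have h : ∀ n : ℕ, ∀ j, co u (ft ^ n) j = 1 := by
    intro n
    induction n with
    | zero => intro j; rw [pow_zero, co_one]
    | succ n ih => intro j; rw [pow_succ, co_mul, ih, co_ft, one_mul]
  rcases Int.eq_nat_or_neg n with ⟨k, rfl | rfl⟩
  · rw [zpow_natCast]; exact h k j
  · rw [zpow_neg, zpow_natCast, co_inv, h, inv_one]

/-- The lamp at `i`. -/
def xx (i : ℤ) : F := ft ^ i * fa * (ft ^ i)⁻¹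

theorem H_xx (i : ℤ) : H (xx i) = 0 := by
  unfold xx; rw [H_mul, H_mul, H_inv, H_fa]; ring

theorem co_xx (u : ℤ → D) (i j : ℤ) : co u (xx i) j = u (j - i) := by
  unfold xx
  rw [co_mul, co_mul, co_ft_zpow, co_fa, H_ft_zpow, one_mul, co_inv, co_ft_zpow, inv_one, mul_one]

/-- Conjugation by a power of `t`. -/
theorem co_conj (u : ℤ → D) (n : ℤ) (w : F) (j : ℤ) :
    co u (ft ^ n * w * (ft ^ n)⁻¹) j = co u w (j - n) := by
  rw [co_mul, co_mul, co_ft_zpow, one_mul, H_ft_zpow, co_inv, co_ft_zpow, inv_one, mul_one]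

theorem H_conj (n : ℤ) (w : F) : H (ft ^ n * w * (ft ^ n)⁻¹) = H w := by
  rw [H_mul, H_mul, H_inv]; ring

theorem xx_conj (n i : ℤ) : ft ^ n * xx i * (ft ^ n)⁻¹ = xx (n + i) := by
  unfold xx
  rw [zpow_add]; group

end wreath

end Pool.Agent.Y975.RD
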