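import Mathlib
import Pool.Agent.Y975.RD.Dh

/-!
Good normal subgroups of the free group, windows, and the passage to the next level.
-/

set_option autoImplicit false

namespace Pool.Agent.Y975.RD

open Pool.Agent.Helper376.Lac (fa ft SF Win WinZ hF free_ext hF_fa hF_ft SF_one SF_inv)
open Pool.Agent.Helper376.DL (Ball ball_succ ball_mono ball_add ball_mono_succ)
open Dh

/-- The group with two elements. -/
abbrev C2 : Type := Multiplicative (ZMod 2)

/-- The nontrivial element. -/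
def tau : C2 := Multiplicative.ofAdd 1

theorem c2_cases (p : C2) : p = 1 ∨ p = tau := by
  revert p; decide

theorem tau_ne : tau ≠ 1 := by decide

theorem tau_tau : tau * tau = 1 := by decide

theorem c2_inv (p : C2) : p⁻¹ = p := by revert p; decide

/-- Parities of toggles. -/
def par (w : F) (j : ℤ) : C2 := co (fun j => if j = 0 then tau else 1) w j

/-- The cocycle of level `m`. -/
def mu (m : ℕ) (j : ℤ) : Dh := if j = 0 then al else if j = -(m : ℤ) then be else 1

/-- The cocycle of level `m`. -/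
def xi (m : ℕ) (w : F) (j : ℤ) : Dh := co (mu m) w j

theorem xi_mul (m : ℕ) (v w : F) (j : ℤ) : xi m (v * w) j = xi m v j * xi m w (j - H v) :=
  co_mul _ _ _ _

theorem xi_one (m : ℕ) (j : ℤ) : xi m 1 j = 1 := co_one _ _

theorem xi_inv (m : ℕ) (w : F) (j : ℤ) : xi m w⁻¹ j = (xi m w (j + H w))⁻¹ := co_inv _ _ _

theorem par_mul (v w : F) (j : ℤ) : par (v * w) j = par v j * par w (j - H v) :=
  co_mul _ _ _ _

theorem par_one (j : ℤ) : par 1 j = 1 := co_one _ _

theorem par_inv (w : F) (j : ℤ) : par w⁻¹ j = (par w (j + H w))⁻¹ := co_inv _ _ _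

theorem xi_xx (m : ℕ) (i j : ℤ) : xi m (xx i) j = mu m (j - i) := co_xx _ _ _

theorem par_xx (i j : ℤ) : par (xx i) j = if j = i then tau else 1 := by
  unfold par
  rw [co_xx]
  simp only [sub_eq_zero]

/-- Compatibility of a dihedral element with parities. -/
def Rel (x : Dh) (p q : C2) : Prop :=
  ((x.s = 1 ∧ p = q) ∨ (x.s = -1 ∧ p ≠ q)) ∧ ((q = 1 ∧ (4 : ℤ) ∣ x.c) ∨ (q ≠ 1 ∧ (4 : ℤ) ∣ x.c - 2))

theorem Rel.one : Rel 1 1 1 := ⟨Or.inl ⟨rfl, rfl⟩, Or.inl ⟨rfl, by rw [one_c]; exact dvd_zero _⟩⟩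

theorem Rel.mul {x y : Dh} {p q p' q' : C2} (h : Rel x p q) (h' : Rel y p' q') :
    Rel (x * y) (p * p') (q * q') := by
  obtain ⟨h1, h2⟩ := h
  obtain ⟨h3, h4⟩ := h'
  unfold Rel
  rw [mul_s, mul_c]
  have hne : (1 : ℤˣ) ≠ -1 := by decide
  rcases c2_cases p with rfl | rfl <;> rcases c2_cases q with rfl | rfl <;>
  rcases c2_cases p' with rfl | rfl <;> rcases c2_cases q' with rfl | rfl <;>
  simp only [tau_tau, one_mul, mul_one, tau_ne, tau_ne.symm, ne_eq, not_true_eq_false,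
    not_false_eq_true, and_true, and_false, or_false, false_or, true_and, false_and] at h1 h2 h3 h4 ⊢ <;>
  rw [h1, h3] <;> simp <;> omega

theorem Rel.inv {x : Dh} {p q : C2} (h : Rel x p q) : Rel x⁻¹ p⁻¹ q⁻¹ := by
  obtain ⟨h1, h2⟩ := h
  unfold Rel
  rw [inv_s, inv_c, c2_inv, c2_inv]
  refine ⟨h1, ?_⟩
  rcases h1 with ⟨h1, _⟩ | ⟨h1, _⟩ <;> rw [h1] <;> rcases h2 with ⟨h2, h3⟩ | ⟨h2, h3⟩
  · left; refine ⟨h2, ?_⟩; simpa using h3
  · right; refine ⟨h2, ?_⟩; simp; omega
  · left; refine ⟨h2, ?_⟩; simpa using h3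
  · right; refine ⟨h2, ?_⟩; simpa using h3

theorem rel_all {m : ℕ} (hm : 0 < m) (w : F) :
    ∀ j : ℤ, Rel (xi m w j) (par w j) (par w (j + m)) := by
  have hof : ∀ i : Fin 2, ∀ j : ℤ, Rel (xi m (FreeGroup.of i) j) (par (FreeGroup.of i) j)
      (par (FreeGroup.of i) (j + m)) := by
    intro i j
    fin_cases i
    · change Rel (xi m fa j) (par fa j) (par fa (j + m))
      unfold xi par
      rw [co_fa, co_fa, co_fa]
      unfold mu
      by_cases h0 : j = 0
      · subst h0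
        have : ¬ ((0 : ℤ) + m = 0) := by omega
        rw [if_pos rfl, if_pos rfl, if_neg this]
        exact ⟨Or.inr ⟨rfl, tau_ne⟩, Or.inl ⟨rfl, by simp [al]⟩⟩
      · rw [if_neg h0, if_neg h0]
        by_cases h1 : j = -(m : ℤ)
        · rw [if_pos h1, if_pos (by omega)]
          exact ⟨Or.inr ⟨rfl, tau_ne.symm⟩, Or.inr ⟨tau_ne, by simp [be]⟩⟩
        · rw [if_neg h1, if_neg (by omega)]
          exact Rel.one
    · change Rel (xi m ft j) (par ft j) (par ft (j + m))
      unfold xi par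
      rw [co_ft, co_ft, co_ft]
      exact Rel.one
  induction w using FreeGroup.induction_on with
  | C1 =>
    intro j; rw [xi_one, par_one, par_one]; exact Rel.one
  | of i => exact hof i
  | inv_of i hi =>
    intro j
    rw [xi_inv, par_inv, par_inv]
    have := (hi (j + H (FreeGroup.of i))).inv
    have e : j + H (FreeGroup.of i) + (m : ℤ) = j + m + H (FreeGroup.of i) := by ring
    rw [e] at this
    exact this
  | mul v w hv hw =>
    intro j
    rw [xi_mul, par_mul, par_mul]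
    have := (hv j).mul (hw (j - H v))
    have e : j - H v + (m : ℤ) = j + m - H v := by ring
    rw [e] at this
    exact this

theorem rel_triv {x : Dh} (h : Rel x 1 1) : x.s = 1 ∧ (4 : ℤ) ∣ x.c := by
  obtain ⟨h1, h2⟩ := h
  refine ⟨?_, ?_⟩
  · rcases h1 with ⟨h, _⟩ | ⟨_, h⟩
    · exact h
    · exact absurd rfl h
  · rcases h2 with ⟨_, h⟩ | ⟨h, _⟩
    · exact h
    · exact absurd rfl h

/-- Window subgroups. -/
def WI (lo hi : ℤ) : Subgroup F := Subgroup.closure {y | ∃ i : ℤ, lo ≤ i ∧ i ≤ hi ∧ y = xx i}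

theorem WI_mono {lo hi lo' hi' : ℤ} (h1 : lo' ≤ lo) (h2 : hi ≤ hi') : WI lo hi ≤ WI lo' hi' := by
  apply Subgroup.closure_mono
  rintro y ⟨i, a, b, rfl⟩
  exact ⟨i, by omega, by omega, rfl⟩

theorem xx_mem {lo hi i : ℤ} (h1 : lo ≤ i) (h2 : i ≤ hi) : xx i ∈ WI lo hi :=
  Subgroup.subset_closure ⟨i, h1, h2, rfl⟩

theorem WI_H {lo hi : ℤ} {w : F} (hw : w ∈ WI lo hi) : H w = 0 := by
  unfold WI at hw
  induction hw using Subgroup.closure_induction with
  | mem y hy => obtain ⟨i, _, _, rfl⟩ := hy; exact H_xx i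
  | one => exact H_one
  | mul y z _ _ h1 h2 => rw [H_mul, h1, h2]; rfl
  | inv y _ h => rw [H_inv, h]; rfl

theorem WI_conj {lo hi : ℤ} (n : ℤ) {w : F} (hw : w ∈ WI lo hi) :
    ft ^ n * w * (ft ^ n)⁻¹ ∈ WI (lo + n) (hi + n) := by
  unfold WI at hw
  induction hw using Subgroup.closure_induction with
  | mem y hy =>
    obtain ⟨i, h1, h2, rfl⟩ := hy
    rw [xx_conj]
    exact xx_mem (by omega) (by omega)
  | one => simpa using Subgroup.one_mem _
  | mul y z _ _ h1 h2 =>
    have e : ft ^ n * (y * z) * (ft ^ n)⁻¹ =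
      (ft ^ n * y * (ft ^ n)⁻¹) * (ft ^ n * z * (ft ^ n)⁻¹) := by group
    rw [e]; exact Subgroup.mul_mem _ h1 h2
  | inv y _ h =>
    have e : ft ^ n * y⁻¹ * (ft ^ n)⁻¹ = (ft ^ n * y * (ft ^ n)⁻¹)⁻¹ := by group
    rw [e]; exact Subgroup.inv_mem _ h

theorem WI_par {lo hi : ℤ} {w : F} (hw : w ∈ WI lo hi) (j : ℤ) (hj : ¬ (lo ≤ j ∧ j ≤ hi)) :
    par w j = 1 := by
  have hH := WI_H hw
  unfold WI at hw
  induction hw using Subgroup.closure_induction with
  | mem y hy =>
    obtain ⟨i, h1, h2, rfl⟩ := hy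
    rw [par_xx, if_neg (by rintro rfl; exact hj ⟨h1, h2⟩)]
  | one => exact par_one j
  | mul y z hy hz h1 h2 =>
    rw [par_mul, WI_H hy, sub_zero, h1 (WI_H hy), h2 (WI_H hz), one_mul]
  | inv y hy h => rw [par_inv, WI_H hy, add_zero, h (WI_H hy), inv_one]

theorem mu_left {m : ℕ} {i j lo hi : ℤ} (h1 : lo ≤ i) (h2 : i ≤ hi)
    (hj : ¬ (lo ≤ j + m ∧ j + m ≤ hi)) : mu m (j - i) = if j = i then al else 1 := by
  unfold mu
  by_cases h : j = i
  · rw [if_pos (by omega), if_pos h]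
  · rw [if_neg (by omega), if_neg h, if_neg]
    intro h3
    exact hj ⟨by omega, by omega⟩

theorem mu_right {m : ℕ} {i j lo hi : ℤ} (h1 : lo ≤ i) (h2 : i ≤ hi)
    (hj : ¬ (lo ≤ j ∧ j ≤ hi)) : mu m (j - i) = if j + m = i then be else 1 := by
  unfold mu
  rw [if_neg (by rintro h; exact hj ⟨by omega, by omega⟩)]
  by_cases h : j + m = i
  · rw [if_pos (by omega), if_pos h]
  · rw [if_neg (by omega), if_neg h]

theorem ite_mul_c2 (x : Dh) (hx : x * x = 1) (p q : C2) :
    (if p = 1 then (1 : Dh) else x) * (if q = 1 then 1 else x) = if p * q = 1 then 1 else x := by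
  rcases c2_cases p with rfl | rfl <;> rcases c2_cases q with rfl | rfl <;>
  simp [tau_ne, tau_tau, hx]

theorem ite_inv_c2 (x : Dh) (hx : x * x = 1) (p : C2) :
    (if p = 1 then (1 : Dh) else x)⁻¹ = if p⁻¹ = 1 then 1 else x := by
  rcases c2_cases p with rfl | rfl
  · simp
  · rw [c2_inv, if_neg tau_ne]
    exact inv_eq_of_mul_eq_one_left hx

theorem xi_left {m : ℕ} {lo hi : ℤ} {w : F} (hw : w ∈ WI lo hi) (j : ℤ)
    (hj : ¬ (lo ≤ j + m ∧ j + m ≤ hi)) : xi m w j = if par w j = 1 then 1 else al := by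
  unfold WI at hw
  induction hw using Subgroup.closure_induction with
  | mem y hy =>
    obtain ⟨i, h1, h2, rfl⟩ := hy
    rw [xi_xx, mu_left h1 h2 hj, par_xx]
    by_cases h : j = i
    · rw [if_pos h, if_pos h, if_neg tau_ne]
    · rw [if_neg h, if_neg h, if_pos rfl]
  | one => rw [xi_one, par_one, if_pos rfl]
  | mul y z hy hz h1 h2 =>
    rw [xi_mul, par_mul, WI_H hy, sub_zero, h1, h2, ite_mul_c2 _ al_sq]
  | inv y hy h =>
    rw [xi_inv, par_inv, WI_H hy, add_zero, h, ite_inv_c2 _ al_sq]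

theorem xi_right {m : ℕ} {lo hi : ℤ} {w : F} (hw : w ∈ WI lo hi) (j : ℤ)
    (hj : ¬ (lo ≤ j ∧ j ≤ hi)) : xi m w j = if par w (j + m) = 1 then 1 else be := by
  unfold WI at hw
  induction hw using Subgroup.closure_induction with
  | mem y hy =>
    obtain ⟨i, h1, h2, rfl⟩ := hy
    rw [xi_xx, mu_right h1 h2 hj, par_xx]
    by_cases h : j + m = i
    · rw [if_pos h, if_pos h, if_neg tau_ne]
    · rw [if_neg h, if_neg h, if_pos rfl]
  | one => rw [xi_one, par_one, if_pos rfl]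
  | mul y z hy hz h1 h2 =>
    rw [xi_mul, par_mul, WI_H hy, sub_zero, sub_zero, h1, h2, ite_mul_c2 _ be_sq]
  | inv y hy h =>
    rw [xi_inv, par_inv, WI_H hy, add_zero, add_zero, h, ite_inv_c2 _ be_sq]

/-- The properties of a stage. -/
structure Good (K : Subgroup F) : Prop where
  nor : K.Normal
  p0 : ∀ w ∈ K, H w = 0
  p1 : ∀ w ∈ K, ∀ j, par w j = 1
  p2 : ∃ b : ℕ, ∀ j : ℤ, (b : ℤ) < j → xx 0 * xx j * (xx 0)⁻¹ * (xx j)⁻¹ ∈ K
  p3 : xx 0 * xx 0 ∈ K
  p5 : ∃ C : ℕ, ∀ n : ℕ, ∀ w ∈ WI 0 n, ∃ w' ∈ WI 0 n, w' ∈ Ball SF (C * (n + 1)) ∧ w' * w⁻¹ ∈ K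

/-- The next level. -/
def KK (m k : ℕ) (K : Subgroup F) : Subgroup F where
  carrier := {w | w ∈ K ∧ H w = 0 ∧ ∀ j, Ink k (xi m w j)}
  one_mem' := ⟨K.one_mem, H_one, fun j => by rw [xi_one]; exact Ink_one k⟩
  mul_mem' := by
    rintro v w ⟨h1, h2, h3⟩ ⟨h4, h5, h6⟩
    refine ⟨K.mul_mem h1 h4, by rw [H_mul, h2, h5]; rfl, fun j => ?_⟩
    rw [xi_mul]
    exact (h3 j).mul (h6 _)
  inv_mem' := by
    rintro v ⟨h1, h2, h3⟩
    refine ⟨K.inv_mem h1, by rw [H_inv, h2]; rfl, fun j => ?_⟩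
    rw [xi_inv]
    exact (h3 _).inv

theorem mem_KK {m k : ℕ} {K : Subgroup F} {w : F} :
    w ∈ KK m k K ↔ w ∈ K ∧ H w = 0 ∧ ∀ j, Ink k (xi m w j) := Iff.rfl

theorem KK_le (m k : ℕ) (K : Subgroup F) : KK m k K ≤ K := fun _ h => h.1

theorem KK_zero_le (m k : ℕ) (K : Subgroup F) : KK m 0 K ≤ KK m k K := by
  rintro w ⟨h1, h2, h3⟩
  refine ⟨h1, h2, fun j => ?_⟩
  rw [Ink_zero (h3 j)]
  exact Ink_one k

theorem KK_normal (m k : ℕ) {K : Subgroup F} (hK : K.Normal) : (KK m k K).Normal := by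
  refine ⟨?_⟩
  rintro w ⟨h1, h2, h3⟩ g
  refine ⟨hK.conj_mem w h1 g, by rw [H_mul, H_mul, H_inv, h2]; ring, fun j => ?_⟩
  rw [xi_mul, xi_mul, xi_inv, H_mul, h2]
  have e : j - (H g + 0) + H g = j := by ring
  rw [e]
  exact (h3 _).conj _

/-- Agreement on short windows. -/
theorem agree {m k : ℕ} {K : Subgroup F} (hK : Good K) {lo hi : ℤ} (hm : hi - lo < m) {w : F}
    (hw : w ∈ WI lo hi) (hwK : w ∈ K) : w ∈ KK m k K := by
  refine ⟨hwK, hK.p0 w hwK, fun j => ?_⟩
  by_cases h : lo ≤ j + m ∧ j + m ≤ hi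
  · rw [xi_right hw j (by omega), hK.p1 w hwK, if_pos rfl]
    exact Ink_one k
  · rw [xi_left hw j h, hK.p1 w hwK, if_pos rfl]
    exact Ink_one k

/-- Lamps at a distance larger than `b` commute. -/
theorem comm_far {K : Subgroup F} (hK : K.Normal) {b : ℕ}
    (hb : ∀ j : ℤ, (b : ℤ) < j → xx 0 * xx j * (xx 0)⁻¹ * (xx j)⁻¹ ∈ K) (i j : ℤ)
    (hij : (b : ℤ) < |i - j|) : xx i * xx j * (xx i)⁻¹ * (xx j)⁻¹ ∈ K := by
  have key : ∀ i j : ℤ, (b : ℤ) < j - i → xx i * xx j * (xx i)⁻¹ * (xx j)⁻¹ ∈ K := by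
    intro i j h
    have h1 := hK.conj_mem _ (hb (j - i) h) (ft ^ i)
    have e : ft ^ i * (xx 0 * xx (j - i) * (xx 0)⁻¹ * (xx (j - i))⁻¹) * (ft ^ i)⁻¹ =
        (ft ^ i * xx 0 * (ft ^ i)⁻¹) * (ft ^ i * xx (j - i) * (ft ^ i)⁻¹) *
        (ft ^ i * xx 0 * (ft ^ i)⁻¹)⁻¹ * (ft ^ i * xx (j - i) * (ft ^ i)⁻¹)⁻¹ := by group
    rw [e, xx_conj, xx_conj, add_zero, add_sub_cancel] at h1
    exact h1
  rcases le_total i j with h | h
  · exact key i j (by rw [abs_of_nonpos (by omega)] at hij; omega)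
  · have h1 := K.inv_mem (key j i (by rw [abs_of_nonneg (by omega)] at hij; omega))
    have e : (xx j * xx i * (xx j)⁻¹ * (xx i)⁻¹)⁻¹ = xx i * xx j * (xx i)⁻¹ * (xx j)⁻¹ := by group
    rw [e] at h1
    exact h1

theorem ball_inv {k : ℕ} {w : F} (h : w ∈ Ball SF k) : w⁻¹ ∈ Ball SF k := by
  have key : ∀ k : ℕ, ∀ (y : F) (x : F), y ∈ SF → x ∈ Ball SF k → y * x ∈ Ball SF (k + 1) := by
    intro k
    induction k with
    | zero =>
      intro y x hy hx
      have : x = 1 := hx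
      subst this
      exact ⟨1, rfl, y, hy, by simp⟩
    | succ k ih =>
      rintro y x hy ⟨z, hz, u, hu, rfl⟩
      exact ⟨y * z, ih y z hy hz, u, hu, by rw [mul_assoc]⟩
  induction k generalizing w with
  | zero =>
    have : w = 1 := h
    subst this
    simpa using h
  | succ k ih =>
    obtain ⟨x, hx, y, hy, rfl⟩ := h
    rw [mul_inv_rev]
    exact key k _ _ (SF_inv hy) (ih hx)

theorem ft_pow_ball (J : ℕ) : ft ^ J ∈ Ball SF J := by
  induction J with
  | zero => exact pow_zero _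
  | succ J ih => rw [pow_succ]; exact ball_succ ih (by simp [SF])

theorem ft_zpow_ball (J : ℤ) : ft ^ J ∈ Ball SF J.natAbs := by
  rcases Int.eq_nat_or_neg J with ⟨n, rfl | rfl⟩
  · rw [zpow_natCast, Int.natAbs_natCast]; exact ft_pow_ball n
  · rw [zpow_neg, zpow_natCast, Int.natAbs_neg, Int.natAbs_natCast]
    exact ball_inv (ft_pow_ball n)

theorem fa_ball : fa ∈ Ball SF 1 := ⟨1, rfl, fa, by simp [SF], by simp⟩

theorem xx_ball (i : ℤ) : xx i ∈ Ball SF (2 * i.natAbs + 1) := by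
  unfold xx
  have := ball_add (ball_add (ft_zpow_ball i) fa_ball) (ball_inv (ft_zpow_ball i))
  exact ball_mono SF_one (by omega) this

theorem pow_ball {c : ℕ} {u : F} (hu : u ∈ Ball SF c) (n : ℕ) : u ^ n ∈ Ball SF (c * n) := by
  induction n with
  | zero => exact pow_zero _
  | succ n ih => rw [pow_succ]; exact ball_add ih hu

/-- A sweep. -/
def sweep (u : ℕ → F) : ℕ → F
  | 0 => 1
  | (n + 1) => sweep u n * (ft ^ n * u n * (ft ^ n)⁻¹)

theorem sweep_ball {u : ℕ → F} {c : ℕ} (hu : ∀ n, u n ∈ Ball SF c) (n : ℕ) :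
    sweep u n ∈ Ball SF ((c + 2) * n) := by
  have h : sweep u n * ft ^ n ∈ Ball SF ((c + 1) * n) := by
    induction n with
    | zero => exact (by simp [sweep] : sweep u 0 * ft ^ 0 = 1)
    | succ n ih =>
      have e : sweep u (n + 1) * ft ^ (n + 1) = sweep u n * ft ^ n * u n * ft := by
        rw [sweep, pow_succ]; group
      rw [e]
      have := ball_add (ball_add ih (hu n)) (ft_pow_ball 1)
      rw [pow_one] at this
      have e2 : (c + 1) * n + c + 1 = (c + 1) * (n + 1) := by ring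
      rw [e2] at this
      exact this
  have h2 := ball_add h (ball_inv (ft_pow_ball n))
  rw [mul_inv_cancel_right] at h2
  have e2 : (c + 1) * n + n = (c + 2) * n := by ring
  rw [e2] at h2
  exact h2

theorem sweep_mem {W : Subgroup F} {u : ℕ → F} (n : ℕ)
    (hu : ∀ i < n, ft ^ i * u i * (ft ^ i)⁻¹ ∈ W) : sweep u n ∈ W := by
  induction n with
  | zero => exact W.one_mem
  | succ n ih =>
    exact W.mul_mem (ih fun i hi => hu i (by omega)) (hu n (by omega))

theorem sweep_H {u : ℕ → F} (hu : ∀ i, H (u i) = 0) (n : ℕ) : H (sweep u n) = 0 := by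
  induction n with
  | zero => exact H_one
  | succ n ih =>
    rw [sweep, H_mul, ih, H_mul, H_mul, H_inv, hu]; ring

theorem sweep_co {D : Type} [Group D] (v : ℤ → D) {u : ℕ → F} (hu : ∀ i, H (u i) = 0)
    {f : ℕ → D} (hf : ∀ i j, co v (u i) j = if j = 0 then f i else 1) (n : ℕ) (j : ℤ) :
    co v (sweep u n) j = if 0 ≤ j ∧ j < n then f j.toNat else 1 := by
  induction n with
  | zero =>
    rw [sweep, co_one, if_neg (by push_cast; omega)]
  | succ n ih =>
    rw [sweep, co_mul, sweep_H hu, ih, sub_zero]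
    have h1 := co_conj v (n : ℤ) (u n) j
    rw [zpow_natCast] at h1
    rw [h1, hf]
    by_cases h : j = n
    · subst h
      rw [if_neg (by omega), if_pos (by omega), if_pos (by push_cast; omega), one_mul]
      simp
    · rw [if_neg (show ¬ (j - n = 0) by omega), mul_one]
      by_cases h2 : 0 ≤ j ∧ j < n
      · rw [if_pos h2, if_pos (by push_cast; omega)]
      · rw [if_neg h2, if_neg (by push_cast; omega)]

/-- The base stage: the lamplighter group. -/
def K0 : Subgroup F where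
  carrier := {w | H w = 0 ∧ ∀ j, par w j = 1}
  one_mem' := ⟨H_one, fun j => par_one j⟩
  mul_mem' := by
    rintro v w ⟨h2, h3⟩ ⟨h5, h6⟩
    refine ⟨by rw [H_mul, h2, h5]; rfl, fun j => ?_⟩
    rw [par_mul, h3, h6, one_mul]
  inv_mem' := by
    rintro v ⟨h2, h3⟩
    refine ⟨by rw [H_inv, h2]; rfl, fun j => ?_⟩
    rw [par_inv, h3, inv_one]

theorem mem_K0 {w : F} : w ∈ K0 ↔ H w = 0 ∧ ∀ j, par w j = 1 := Iff.rfl

theorem good_K0 : Good K0 where
  nor := by
    refine ⟨?_⟩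
    rintro w ⟨h2, h3⟩ g
    refine ⟨by rw [H_mul, H_mul, H_inv, h2]; ring, fun j => ?_⟩
    rw [par_mul, par_mul, par_inv, H_mul, h2]
    have e : j - (H g + 0) + H g = j := by ring
    rw [e, h3, mul_one, mul_inv_cancel]
  p0 := fun w h => h.1
  p1 := fun w h => h.2
  p2 := by
    refine ⟨0, fun j _ => ?_⟩
    rw [mem_K0]
    constructor
    · rw [H_mul, H_mul, H_mul, H_inv, H_inv, H_xx, H_xx]; rfl
    · intro i
      rw [par_mul, par_mul, par_mul, par_inv, par_inv]
      simp only [H_mul, H_inv, H_xx, sub_zero, add_zero, neg_zero]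
      rw [mul_comm (par (xx 0) i) (par (xx j) i)]
      group
  p3 := by
    rw [mem_K0]
    constructor
    · rw [H_mul, H_xx]; rfl
    · intro i
      rw [par_mul, H_xx, sub_zero]
      rcases c2_cases (par (xx 0) i) with h | h <;> rw [h]
      · rfl
      · exact tau_tau
  p5 := by
    refine ⟨3, fun n w hw => ?_⟩
    classical
    let u : ℕ → F := fun i => if par w i = 1 then 1 else xx 0
    have hxx0 : xx 0 = fa := by simp [xx]
    have huH : ∀ i, H (u i) = 0 := by
      intro i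
      by_cases h : par w i = 1
      · simp only [u, if_pos h, H_one]
      · simp only [u, if_neg h, H_xx]
    have hub : ∀ i, u i ∈ Ball SF 1 := by
      intro i
      by_cases h : par w i = 1
      · simp only [u, if_pos h]
        exact ball_mono SF_one (Nat.zero_le 1) rfl
      · simp only [u, if_neg h, hxx0]
        exact fa_ball
    have hf : ∀ (i : ℕ) (j : ℤ), par (u i) j = if j = 0 then par w i else 1 := by
      intro i j
      by_cases h : par w i = 1
      · simp only [u, if_pos h, par_one, h, ite_self]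
      · simp only [u, if_neg h, par_xx]
        rcases c2_cases (par w i) with h2 | h2
        · exact absurd h2 h
        · rw [h2]
    have hmem : sweep u (n + 1) ∈ WI 0 n := by
      apply sweep_mem
      intro i hi
      by_cases h : par w i = 1
      · simp only [u, if_pos h, mul_one, mul_inv_cancel]
        exact Subgroup.one_mem _
      · simp only [u, if_neg h]
        have := xx_conj (i : ℤ) 0
        rw [zpow_natCast] at this
        rw [this]
        exact xx_mem (by omega) (by omega)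
    refine ⟨sweep u (n + 1), hmem, sweep_ball hub (n + 1), ?_⟩
    rw [mem_K0]
    constructor
    · rw [H_mul, H_inv, WI_H hw, sweep_H huH]; rfl
    · intro j
      rw [par_mul, par_inv, WI_H hw, sweep_H huH, sub_zero, add_zero]
      have h1 := sweep_co (fun j => if j = 0 then tau else 1) huH (f := fun i => par w i) hf (n + 1) j
      change par (sweep u (n + 1)) j = _ at h1
      rw [h1]
      by_cases h : 0 ≤ j ∧ j < ((n + 1 : ℕ) : ℤ)
      · rw [if_pos h]
        have e : ((j.toNat : ℕ) : ℤ) = j := Int.toNat_of_nonneg h.1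
        simp only [e, mul_inv_cancel]
      · rw [if_neg h, WI_par hw j (by push_cast at h; omega), inv_one, mul_one]

end Pool.Agent.Y975.RD
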