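import Mathlib
import Pool.Agent.Y975.RD.Base

/-!
The next level of a good subgroup is good.
-/

set_option autoImplicit false

namespace Pool.Agent.Y975.RD

open Pool.Agent.Helper376.Lac (fa ft SF Win WinZ hF free_ext hF_fa hF_ft SF_one SF_inv)
open Pool.Agent.Helper376.DL (Ball ball_succ ball_mono ball_add ball_mono_succ)
open Dh

theorem mu_sq (m : ℕ) (j : ℤ) : mu m j * mu m j = 1 := by
  unfold mu
  split_ifs
  · exact al_sq
  · exact be_sq
  · exact one_mul 1

theorem mu_inv (m : ℕ) (j : ℤ) : (mu m j)⁻¹ = mu m j := inv_eq_of_mul_eq_one_left (mu_sq m j)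

theorem mu_eq_one {m : ℕ} {j : ℤ} (h0 : j ≠ 0) (h1 : j ≠ -(m : ℤ)) : mu m j = 1 := by
  unfold mu; rw [if_neg h0, if_neg h1]

theorem xi_comm_xx (m : ℕ) (i j l : ℤ) :
    xi m (xx i * xx j * (xx i)⁻¹ * (xx j)⁻¹) l =
      mu m (l - i) * mu m (l - j) * mu m (l - i) * mu m (l - j) := by
  rw [xi_mul, xi_mul, xi_mul, xi_inv, xi_inv, xi_xx]
  simp only [H_mul, H_inv, H_xx, sub_zero, add_zero, neg_zero]
  rw [xi_xx, xi_xx, mu_inv, mu_inv]

theorem comm_KK {m : ℕ} (k : ℕ) {K : Subgroup F} {i j : ℤ} (h0 : i ≠ j)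
    (h1 : i - j ≠ m) (h2 : j - i ≠ m) (h : xx i * xx j * (xx i)⁻¹ * (xx j)⁻¹ ∈ K) :
    xx i * xx j * (xx i)⁻¹ * (xx j)⁻¹ ∈ KK m k K := by
  refine ⟨h, ?_, fun l => ?_⟩
  · simp only [H_mul, H_inv, H_xx]; rfl
  · rw [xi_comm_xx]
    by_cases hl : mu m (l - i) = 1
    · rw [hl, one_mul, mul_one, mu_sq]; exact Ink_one k
    · have : mu m (l - j) = 1 := by
        by_contra hcon
        have a1 : l - i = 0 ∨ l - i = -(m : ℤ) := by
          by_contra hc
          push Not at hc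
          exact hl (mu_eq_one hc.1 hc.2)
        have a2 : l - j = 0 ∨ l - j = -(m : ℤ) := by
          by_contra hc
          push Not at hc
          exact hcon (mu_eq_one hc.1 hc.2)
        rcases a1 with a1 | a1 <;> rcases a2 with a2 | a2 <;> omega
      rw [this, mul_one, mul_one, mu_sq]; exact Ink_one k

/-- The commutator of two interacting lamps. -/
def yy (m : ℕ) : F := xx 0 * xx m * (xx 0)⁻¹ * (xx m)⁻¹

theorem H_yy (m : ℕ) : H (yy m) = 0 := by
  unfold yy; simp only [H_mul, H_inv, H_xx]; rfl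

theorem xi_yy {m : ℕ} (hm : 0 < m) (j : ℤ) : xi m (yy m) j = if j = 0 then ⟨1, -4⟩ else 1 := by
  unfold yy
  rw [xi_comm_xx, sub_zero]
  by_cases h : j = 0
  · subst h
    rw [if_pos rfl]
    have e1 : mu m 0 = al := by unfold mu; rw [if_pos rfl]
    have e2 : mu m (0 - m) = be := by unfold mu; rw [if_neg (by omega), if_pos (by omega)]
    rw [e1, e2]
    have := ab_pow 2
    rw [pow_two, ← mul_assoc] at this
    rw [this]
    ext
    · rfl
    · norm_num
  · rw [if_neg h]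
    by_cases h1 : j = m
    · have e1 : mu m j = 1 := mu_eq_one h (by omega)
      rw [e1, one_mul, mul_one, mu_sq]
    · have e1 : mu m (j - m) = 1 := mu_eq_one (by omega) (by omega)
      rw [e1, mul_one, mul_one, mu_sq]

theorem xi_pow {m : ℕ} {w : F} (hw : H w = 0) (n : ℕ) (j : ℤ) :
    xi m (w ^ n) j = (xi m w j) ^ n := by
  induction n with
  | zero => rw [pow_zero, pow_zero, xi_one]
  | succ n ih => rw [pow_succ, pow_succ, xi_mul, ih, H_pow, hw, mul_zero, sub_zero]

theorem dh_pow (n : ℕ) : (⟨1, -4⟩ : Dh) ^ n = ⟨1, -4 * n⟩ := by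
  induction n with
  | zero => rfl
  | succ n ih =>
    rw [pow_succ, ih]
    ext
    · rfl
    · rw [mul_c]; push_cast; ring

theorem yy_ball (m : ℕ) : yy m ∈ Ball SF (4 * m + 4) := by
  unfold yy
  have h0 := xx_ball 0
  have hm := xx_ball (m : ℤ)
  have := ball_add (ball_add (ball_add h0 hm) (ball_inv h0)) (ball_inv hm)
  exact ball_mono SF_one (by simp; omega) this

theorem good_KK {K : Subgroup F} (hK : Good K) {b m k : ℕ}
    (hb : ∀ j : ℤ, (b : ℤ) < j → xx 0 * xx j * (xx 0)⁻¹ * (xx j)⁻¹ ∈ K) (hm : b < m) (hk : 1 ≤ k) :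
    Good (KK m k K) where
  nor := KK_normal m k hK.nor
  p0 := fun w h => h.2.1
  p1 := fun w h => hK.p1 w h.1
  p2 := by
    refine ⟨m, fun j hj => ?_⟩
    exact comm_KK k (by omega) (by omega) (by omega) (hb j (by omega))
  p3 := by
    refine ⟨hK.p3, by rw [H_mul, H_xx]; rfl, fun l => ?_⟩
    rw [xi_mul, H_xx, sub_zero, xi_xx, mu_sq]
    exact Ink_one k
  p5 := by
    have hm0 : 0 < m := by omega
    obtain ⟨C, hC⟩ := hK.p5
    refine ⟨((4 * m + 4) * k + 2) + C, fun n w hw => ?_⟩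
    obtain ⟨w1, hw1, hb1, hK1⟩ := hC n w hw
    have heW : w1 * w⁻¹ ∈ WI 0 n := Subgroup.mul_mem _ hw1 (Subgroup.inv_mem _ hw)
    obtain ⟨e, he⟩ : ∃ e, e = w1 * w⁻¹ := ⟨_, rfl⟩
    rw [← he] at hK1 heW
    have hek : ∀ j, (xi m e j).s = 1 ∧ (4 : ℤ) ∣ (xi m e j).c := by
      intro j
      have h := rel_all hm0 e j
      rw [hK.p1 e hK1, hK.p1 e hK1] at h
      exact rel_triv h
    have hout : ∀ j : ℤ, ¬ (0 ≤ j ∧ j + m ≤ n) → xi m e j = 1 := by
      intro j hj
      by_cases h : 0 ≤ j + m ∧ j + m ≤ (n : ℤ)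
      · rw [xi_right heW j (by omega), hK.p1 e hK1, if_pos rfl]
      · rw [xi_left heW j h, hK.p1 e hK1, if_pos rfl]
    have hkz : (0 : ℤ) < k := by exact_mod_cast hk
    let nn : ℕ → ℕ := fun i => (((xi m e i).c / 4) % (k : ℤ)).toNat
    have hnn : ∀ i, ((nn i : ℕ) : ℤ) = ((xi m e i).c / 4) % (k : ℤ) := by
      intro i
      exact Int.toNat_of_nonneg (Int.emod_nonneg _ (by omega))
    have hnk : ∀ i, nn i ≤ k := by
      intro i
      have := Int.emod_lt_of_pos ((xi m e i).c / 4) hkz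
      have h2 := hnn i
      omega
    let u : ℕ → F := fun i => yy m ^ nn i
    have huH : ∀ i, H (u i) = 0 := by
      intro i
      change H (yy m ^ nn i) = 0
      rw [H_pow, H_yy, mul_zero]
    have hub : ∀ i, u i ∈ Ball SF ((4 * m + 4) * k) := by
      intro i
      have := pow_ball (yy_ball m) (nn i)
      exact ball_mono SF_one (Nat.mul_le_mul_left _ (hnk i)) this
    have hf : ∀ (i : ℕ) (j : ℤ), xi m (u i) j =
        if j = 0 then (fun i : ℕ => (⟨1, -4 * (nn i : ℤ)⟩ : Dh)) i else 1 := by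
      intro i j
      change xi m (yy m ^ nn i) j = _
      rw [xi_pow (H_yy m), xi_yy hm0]
      by_cases h : j = 0
      · rw [if_pos h, if_pos h, dh_pow]
      · rw [if_neg h, if_neg h, one_pow]
    have hyK : yy m ∈ K := hb m (by exact_mod_cast hm)
    have hcorrW : sweep u (n + 1 - m) ∈ WI 0 n := by
      apply sweep_mem
      intro i hi
      have h1 : yy m ^ nn i ∈ WI 0 m := by
        apply Subgroup.pow_mem
        unfold yy
        have a0 : xx 0 ∈ WI 0 m := xx_mem le_rfl (by omega)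
        have am : xx m ∈ WI 0 m := xx_mem (by omega) le_rfl
        exact Subgroup.mul_mem _ (Subgroup.mul_mem _ (Subgroup.mul_mem _ a0 am)
          (Subgroup.inv_mem _ a0)) (Subgroup.inv_mem _ am)
      have h2 := WI_conj (i : ℤ) h1
      rw [zpow_natCast] at h2
      exact WI_mono (by omega) (by omega) h2
    have hcorrK : sweep u (n + 1 - m) ∈ K := by
      apply sweep_mem
      intro i hi
      exact hK.nor.conj_mem _ (K.pow_mem hyK _) _
    refine ⟨sweep u (n + 1 - m) * w1, Subgroup.mul_mem _ hcorrW hw1, ?_, ?_⟩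
    · have h1 := ball_add (sweep_ball hub (n + 1 - m)) hb1
      refine ball_mono SF_one ?_ h1
      have h2 : ((4 * m + 4) * k + 2) * (n + 1 - m) ≤ ((4 * m + 4) * k + 2) * (n + 1) :=
        Nat.mul_le_mul_left _ (by omega)
      calc ((4 * m + 4) * k + 2) * (n + 1 - m) + C * (n + 1)
          ≤ ((4 * m + 4) * k + 2) * (n + 1) + C * (n + 1) := by omega
        _ = ((4 * m + 4) * k + 2 + C) * (n + 1) := by ring
    · have e1 : sweep u (n + 1 - m) * w1 * w⁻¹ = sweep u (n + 1 - m) * e := by rw [he, mul_assoc]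
      rw [e1]
      refine ⟨K.mul_mem hcorrK hK1, by rw [H_mul, sweep_H huH, hK.p0 e hK1]; rfl, fun j => ?_⟩
      rw [xi_mul, sweep_H huH, sub_zero]
      have h1 := sweep_co (mu m) huH (f := fun i : ℕ => (⟨1, -4 * (nn i : ℤ)⟩ : Dh)) hf
        (n + 1 - m) j
      change xi m (sweep u (n + 1 - m)) j = _ at h1
      rw [h1]
      by_cases h : 0 ≤ j ∧ j < ((n + 1 - m : ℕ) : ℤ)
      · rw [if_pos h]
        have ej : ((j.toNat : ℕ) : ℤ) = j := Int.toNat_of_nonneg h.1
        obtain ⟨hs, hc⟩ := hek j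
        refine ⟨by rw [mul_s, hs]; rfl, ?_⟩
        rw [mul_c]
        have h3 := hnn j.toNat
        rw [ej] at h3
        change (4 * (k : ℤ)) ∣ -4 * (nn j.toNat : ℤ) + ((1 : ℤˣ) : ℤ) * (xi m e j).c
        rw [h3]
        obtain ⟨c, hc⟩ := hc
        rw [hc, Int.mul_ediv_cancel_left _ (by norm_num : (4 : ℤ) ≠ 0)]
        have h4 : (k : ℤ) ∣ c - c % (k : ℤ) := Int.dvd_self_sub_emod
        have h5 := mul_dvd_mul_left (4 : ℤ) h4
        have e2 : -4 * (c % (k : ℤ)) + ((1 : ℤˣ) : ℤ) * (4 * c) = 4 * (c - c % (k : ℤ)) := by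
          push_cast; ring
        rw [e2]
        exact h5
      · rw [if_neg h, one_mul, hout j (by omega)]
        exact Ink_one k

end Pool.Agent.Y975.RD
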