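import Mathlib
import Pool.Agent.Y975.RD.Level

/-!
Balls in quotients, and the telescoping argument in an abstract group.
-/

set_option autoImplicit false

namespace Pool.Agent.Y975.RD

open Pool.Agent.Helper376.Lac (fa ft SF Win WinZ hF free_ext hF_fa hF_ft SF_one SF_inv)
open Pool.Agent.Helper376.DL (Ball ball_succ ball_mono ball_add ball_mono_succ)

theorem ball_inv_gen {G : Type} [Group G] {V : Set G} (hV : ∀ s ∈ V, s⁻¹ ∈ V) {k : ℕ} {w : G}
    (h : w ∈ Ball V k) : w⁻¹ ∈ Ball V k := by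
  have key : ∀ k : ℕ, ∀ (y : G) (x : G), y ∈ V → x ∈ Ball V k → y * x ∈ Ball V (k + 1) := by
    intro k
    induction k with
    | zero =>
      intro y x hy hx
      have : x = 1 := hx
      subst this
      exact ⟨1, rfl, y, hy, by simp⟩
    | succ k ih =>
      rintro y x hy ⟨z, hz, u, hu, rfl⟩
      exact ⟨y * z, ih y z hy hz, u, hu, by rw [mul_assoc]⟩
  induction k generalizing w with
  | zero =>
    have : w = 1 := h
    subst this
    simpa using h
  | succ k ih =>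
    obtain ⟨x, hx, y, hy, rfl⟩ := h
    rw [mul_inv_rev]
    exact key k _ _ (hV _ hy) (ih hx)

/-- The class of `w` modulo `K` has `S`-length at most `n`. -/
def BK (K : Subgroup F) (S : Set F) (w : F) (n : ℕ) : Prop := ∃ w' ∈ Ball S n, w⁻¹ * w' ∈ K

section BK

variable {K : Subgroup F} {S : Set F}

theorem BK.mono (h1 : (1 : F) ∈ S) {w : F} {m n : ℕ} (h : m ≤ n) (hw : BK K S w m) :
    BK K S w n := by
  obtain ⟨w', hw', h2⟩ := hw
  exact ⟨w', ball_mono h1 h hw', h2⟩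

theorem BK.mono_K {K' : Subgroup F} (h : K ≤ K') {w : F} {n : ℕ} (hw : BK K S w n) :
    BK K' S w n := by
  obtain ⟨w', hw', h2⟩ := hw
  exact ⟨w', hw', h h2⟩

theorem BK.of_ball {w : F} {n : ℕ} (hw : w ∈ Ball S n) : BK K S w n :=
  ⟨w, hw, by rw [inv_mul_cancel]; exact K.one_mem⟩

theorem BK.mul (hK : K.Normal) {u v : F} {m n : ℕ} (hu : BK K S u m) (hv : BK K S v n) :
    BK K S (u * v) (m + n) := by
  obtain ⟨u', hu', h1⟩ := hu
  obtain ⟨v', hv', h2⟩ := hv
  refine ⟨u' * v', ball_add hu' hv', ?_⟩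
  have h3 := K.mul_mem (hK.conj_mem _ h1 v⁻¹) h2
  have e : v⁻¹ * (u⁻¹ * u') * v⁻¹⁻¹ * (v⁻¹ * v') = (u * v)⁻¹ * (u' * v') := by group
  rw [e] at h3
  exact h3

theorem BK.inv (hK : K.Normal) (hS : ∀ s ∈ S, s⁻¹ ∈ S) {u : F} {n : ℕ} (hu : BK K S u n) :
    BK K S u⁻¹ n := by
  obtain ⟨u', hu', h1⟩ := hu
  refine ⟨u'⁻¹, ball_inv_gen hS hu', ?_⟩
  have h2 := hK.conj_mem _ (K.inv_mem h1) u
  have e : u * (u⁻¹ * u')⁻¹ * u⁻¹ = u⁻¹⁻¹ * u'⁻¹ := by group
  rw [e] at h2
  exact h2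

theorem BK.congr {v w : F} {n : ℕ} (h : v⁻¹ * w ∈ K) (hw : BK K S w n) : BK K S v n := by
  obtain ⟨w', hw', h1⟩ := hw
  refine ⟨w', hw', ?_⟩
  have e : v⁻¹ * w' = (v⁻¹ * w) * (w⁻¹ * w') := by group
  rw [e]
  exact K.mul_mem h h1

theorem BK.pow (hK : K.Normal) {u : F} {n : ℕ} (hu : BK K S u n) (k : ℕ) :
    BK K S (u ^ k) (k * n) := by
  induction k with
  | zero => rw [zero_mul, pow_zero]; exact BK.of_ball rfl
  | succ k ih =>
    rw [pow_succ, Nat.succ_mul]
    exact BK.mul hK ih hu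

theorem ball_mk [K.Normal] {w : F} {n : ℕ} :
    (QuotientGroup.mk' K w) ∈ Ball ((QuotientGroup.mk' K) '' S) n ↔ BK K S w n := by
  induction n generalizing w with
  | zero =>
    constructor
    · intro h
      have h' : QuotientGroup.mk' K w = 1 := h
      rw [QuotientGroup.mk'_apply, QuotientGroup.eq_one_iff] at h'
      exact ⟨1, rfl, by simpa using h'⟩
    · rintro ⟨w', hw', h⟩
      have : w' = 1 := hw'
      subst this
      have h2 : w ∈ K := by simpa using h
      change QuotientGroup.mk' K w = 1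
      rw [QuotientGroup.mk'_apply, QuotientGroup.eq_one_iff]
      exact h2
  | succ n ih =>
    constructor
    · rintro ⟨x, hx, _, ⟨s, hs, rfl⟩, e⟩
      obtain ⟨x, rfl⟩ := QuotientGroup.mk'_surjective K x
      obtain ⟨x', hx', h2⟩ := ih.1 hx
      refine ⟨x' * s, ball_succ hx' hs, ?_⟩
      have e2 : (QuotientGroup.mk' K) (w⁻¹ * (x' * s)) = 1 := by
        have e3 : QuotientGroup.mk' K x = QuotientGroup.mk' K x' := by
          rw [QuotientGroup.mk'_apply, QuotientGroup.mk'_apply]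
          exact QuotientGroup.eq.2 h2
        rw [map_mul, map_inv, e, map_mul, e3]; group
      rw [QuotientGroup.mk'_apply, QuotientGroup.eq_one_iff] at e2
      exact e2
    · rintro ⟨_, ⟨x, hx, s, hs, rfl⟩, h⟩
      refine ⟨QuotientGroup.mk' K x, ih.2 (BK.of_ball hx), _, ⟨s, hs, rfl⟩, ?_⟩
      rw [← map_mul, QuotientGroup.mk'_apply, QuotientGroup.mk'_apply]
      exact QuotientGroup.eq.2 h

end BK

section tele

variable {Q : Type} [Group Q]

theorem alt_pow {x y : Q} (hx : x * x = 1) (hy : y * y = 1) (k : ℕ) :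
    (x * y) ^ (k + 1) = x * (y * x) ^ k * y := by
  induction k with
  | zero => simp
  | succ k ih =>
    rw [pow_succ, ih, pow_succ (y * x) k]
    simp only [mul_assoc]

/-- One step of the telescoping argument, one side. -/
theorem tele_side {S : Set Q} (hS : ∀ s ∈ S, s⁻¹ ∈ S) {W : Set Q} {a x y κx κy : Q}
    (hx : x * x = 1) (hy : y * y = 1) (hxW : ∀ μ ∈ W, x * μ = μ * x)
    (hyW : ∀ μ ∈ W, y * μ = μ * y) (hκx : κx * a * κx⁻¹ = x) (hκy : κy * a * κy⁻¹ = y)
    {h T : ℕ} (ha : a ∈ Ball S T) (hbx : κx ∈ Ball S h) (hby : κy ∈ Ball S h) {k B : ℕ} {μ : Q}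
    (hμ : μ ∈ W) (hcase : (x * y) ^ k * μ ∈ Ball S B ∨ (y * x) ^ k * μ ∈ Ball S B) :
    (x * y) ^ (k + 1) * μ * κy ∈ Ball S (B + 3 * h + 2 * T) := by
  have hyk : y * κy = κy * a := by rw [← hκy]; group
  rcases hcase with hc | hc
  · have e : (x * y) ^ (k + 1) * μ * κy =
        ((x * y) ^ k * μ) * κx * a * κx⁻¹ * κy * a := by
      have e1 : (x * y) ^ (k + 1) * μ * κy = (x * y) ^ k * (x * (y * μ)) * κy := by
        rw [pow_succ]; simp only [mul_assoc]
      have e2 : x * (y * μ) = μ * (x * y) := by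
        rw [hyW μ hμ, ← mul_assoc, hxW μ hμ, mul_assoc]
      have e3 : (x * y) ^ k * (μ * (x * y)) * κy = ((x * y) ^ k * μ) * (x * (y * κy)) := by
        simp only [mul_assoc]
      rw [e1, e2, e3, hyk, ← hκx]
      simp only [mul_assoc]
    rw [e]
    have := ball_add (ball_add (ball_add (ball_add (ball_add hc hbx) ha) (ball_inv_gen hS hbx))
      hby) ha
    have e4 : B + h + T + h + h + T = B + 3 * h + 2 * T := by ring
    rw [e4] at this
    exact this
  · have e : (x * y) ^ (k + 1) * μ * κy =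
        κx * a * κx⁻¹ * ((y * x) ^ k * μ) * κy * a := by
      rw [alt_pow hx hy k]
      have e1 : x * (y * x) ^ k * y * μ * κy = x * ((y * x) ^ k * (y * μ)) * κy := by
        simp only [mul_assoc]
      rw [e1, hyW μ hμ]
      have e2 : x * ((y * x) ^ k * (μ * y)) * κy = x * ((y * x) ^ k * μ) * (y * κy) := by
        simp only [mul_assoc]
      rw [e2, hyk, ← hκx]
      simp only [mul_assoc]
    rw [e]
    have := ball_add (ball_add (ball_add (ball_add (ball_add hbx ha) (ball_inv_gen hS hbx)) hc)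
      hby) ha
    have e4 : h + T + h + B + h + T = B + 3 * h + 2 * T := by ring
    rw [e4] at this
    exact this

/-- The telescoping argument. -/
theorem telescope {S : Set Q} (hS : ∀ s ∈ S, s⁻¹ ∈ S) {W : Set Q} {a x y κx κy : Q}
    (hx : x * x = 1) (hy : y * y = 1) (hxW : ∀ μ ∈ W, x * μ = μ * x)
    (hyW : ∀ μ ∈ W, y * μ = μ * y) (hκx : κx * a * κx⁻¹ = x) (hκy : κy * a * κy⁻¹ = y)
    {h T : ℕ} (ha : a ∈ Ball S T) (hbx : κx ∈ Ball S h) (hby : κy ∈ Ball S h) {k0 M B0 D : ℕ}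
    (hk : k0 ≤ M)
    (hbase : ∀ μ ∈ W, (x * y) ^ k0 * μ * κy ∈ Ball S B0 ∧ (y * x) ^ k0 * μ * κx ∈ Ball S B0)
    (hend : ∃ μ ∈ W, (x * y) ^ M * μ * κy ∉ Ball S (B0 + (M - k0) * (D + 3 * h + 2 * T))) :
    ∃ k, k0 ≤ k ∧ k < M ∧
      (∀ μ ∈ W, (x * y) ^ k * μ * κy ∈ Ball S (B0 + (k - k0) * (D + 3 * h + 2 * T)) ∧
        (y * x) ^ k * μ * κx ∈ Ball S (B0 + (k - k0) * (D + 3 * h + 2 * T))) ∧
      ∃ μ ∈ W, (x * y) ^ k * μ ∉ Ball S (B0 + (k - k0) * (D + 3 * h + 2 * T) + D) ∧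
        (y * x) ^ k * μ ∉ Ball S (B0 + (k - k0) * (D + 3 * h + 2 * T) + D) := by
  by_contra hcon
  push Not at hcon
  have key : ∀ j, k0 + j ≤ M → ∀ μ ∈ W,
      (x * y) ^ (k0 + j) * μ * κy ∈ Ball S (B0 + j * (D + 3 * h + 2 * T)) ∧
        (y * x) ^ (k0 + j) * μ * κx ∈ Ball S (B0 + j * (D + 3 * h + 2 * T)) := by
    intro j
    induction j with
    | zero =>
      intro _ μ hμ
      simpa using hbase μ hμ
    | succ j ih =>
      intro hj μ hμ
      have ih' := ih (by omega)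
      have e0 : k0 + j - k0 = j := by omega
      have h1 := hcon (k0 + j) (by omega) (by omega) (by rw [e0]; exact ih')
      rw [e0] at h1
      have h2 : (x * y) ^ (k0 + j) * μ ∈ Ball S (B0 + j * (D + 3 * h + 2 * T) + D) ∨
          (y * x) ^ (k0 + j) * μ ∈ Ball S (B0 + j * (D + 3 * h + 2 * T) + D) := by
        by_cases hc : (x * y) ^ (k0 + j) * μ ∈ Ball S (B0 + j * (D + 3 * h + 2 * T) + D)
        · exact Or.inl hc
        · exact Or.inr (h1 μ hμ hc)
      have e1 : B0 + j * (D + 3 * h + 2 * T) + D + 3 * h + 2 * T =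
          B0 + (j + 1) * (D + 3 * h + 2 * T) := by ring
      constructor
      · have := tele_side hS hx hy hxW hyW hκx hκy ha hbx hby hμ h2
        rw [e1] at this
        exact this
      · have := tele_side hS hy hx hyW hxW hκy hκx ha hby hbx hμ h2.symm
        rw [e1] at this
        exact this
  obtain ⟨μ, hμ, hnot⟩ := hend
  apply hnot
  have := (key (M - k0) (by omega) μ hμ).1
  have e : k0 + (M - k0) = M := by omega
  rw [e] at this
  exact this

end tele

end Pool.Agent.Y975.RD
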