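import Mathlib
import Pool.Agent.Y975.RD.Tele

/-!
The potential function on the unfolded line.
-/

set_option autoImplicit false

namespace Pool.Agent.Y975.RD

open Pool.Agent.Helper376.Lac (fa ft SF Win WinZ hF free_ext hF_fa hF_ft SF_one SF_inv)
open Pool.Agent.Helper376.DL (Ball ball_succ ball_mono ball_add ball_mono_succ)
open Dh

theorem H_SF {u : F} (hu : u ∈ SF) : |H u| ≤ 1 := by
  simp only [SF, Set.mem_insert_iff, Set.mem_singleton_iff] at hu
  rcases hu with rfl | rfl | rfl | rfl | rfl
  · rw [H_one]; norm_num
  · rw [H_fa]; norm_num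
  · rw [H_inv, H_fa]; norm_num
  · rw [H_ft]; norm_num
  · rw [H_inv, H_ft]; norm_num

theorem xi_SF {m : ℕ} {u : F} (hu : u ∈ SF) (j : ℤ) : xi m u j = 1 ∨ xi m u j = mu m j := by
  simp only [SF, Set.mem_insert_iff, Set.mem_singleton_iff] at hu
  rcases hu with rfl | rfl | rfl | rfl | rfl
  · left; exact xi_one m j
  · right; exact co_fa _ _
  · right
    rw [xi_inv, H_fa, add_zero]
    change (co (mu m) fa j)⁻¹ = _
    rw [co_fa, mu_inv]
  · left; exact co_ft _ _
  · left
    rw [xi_inv]
    change (co (mu m) ft _)⁻¹ = _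
    rw [co_ft, inv_one]

theorem ball_H {c : ℕ} {w : F} (hw : w ∈ Ball SF c) : |H w| ≤ c := by
  induction c generalizing w with
  | zero =>
    have : w = 1 := hw
    subst this
    rw [H_one]; norm_num
  | succ c ih =>
    obtain ⟨v, hv, u, hu, rfl⟩ := hw
    have h1 := ih hv
    have h2 := H_SF hu
    rw [H_mul]
    push_cast
    exact (abs_add_le _ _).trans (by linarith)

theorem loc_left {m c : ℕ} {w : F} (hw : w ∈ Ball SF c) (j : ℤ) (hj : (c : ℤ) < |j + m|) :
    xi m w j = 1 ∨ xi m w j = al := by
  induction c generalizing w j with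
  | zero =>
    have : w = 1 := hw
    subst this
    left; exact xi_one m j
  | succ c ih =>
    obtain ⟨v, hv, u, hu, rfl⟩ := hw
    push_cast at hj
    have h1 := ih hv j (by linarith)
    have h2 := ball_H hv
    have h3 : xi m u (j - H v) = 1 ∨ xi m u (j - H v) = al := by
      rcases xi_SF (m := m) hu (j - H v) with h | h
      · exact Or.inl h
      · rw [h]
        unfold mu
        by_cases h0 : j - H v = 0
        · rw [if_pos h0]; right; rfl
        · rw [if_neg h0, if_neg]
          · left; rfl
          · intro h4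
            have h5 : j + m = H v := by linarith
            rw [h5] at hj
            linarith
    rw [xi_mul]
    rcases h1 with h1 | h1 <;> rcases h3 with h3 | h3 <;> rw [h1, h3]
    · left; exact one_mul 1
    · right; exact one_mul _
    · right; exact mul_one _
    · left; exact al_sq

theorem loc_right {m c : ℕ} {w : F} (hw : w ∈ Ball SF c) (j : ℤ) (hj : (c : ℤ) < |j|) :
    xi m w j = 1 ∨ xi m w j = be := by
  induction c generalizing w j with
  | zero =>
    have : w = 1 := hw
    subst this
    left; exact xi_one m j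
  | succ c ih =>
    obtain ⟨v, hv, u, hu, rfl⟩ := hw
    push_cast at hj
    have h1 := ih hv j (by linarith)
    have h2 := ball_H hv
    have h3 : xi m u (j - H v) = 1 ∨ xi m u (j - H v) = be := by
      rcases xi_SF (m := m) hu (j - H v) with h | h
      · exact Or.inl h
      · rw [h]
        unfold mu
        rw [if_neg]
        · by_cases h0 : j - H v = -(m : ℤ)
          · rw [if_pos h0]; right; rfl
          · rw [if_neg h0]; left; rfl
        · intro h4
          have h5 : j = H v := by linarith
          rw [h5] at hj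
          linarith
    rw [xi_mul]
    rcases h1 with h1 | h1 <;> rcases h3 with h3 | h3 <;> rw [h1, h3]
    · left; exact one_mul 1
    · right; exact one_mul _
    · right; exact mul_one _
    · left; exact be_sq

/-- Clamping to the interval `[A, A + w]`. -/
def cl (A w y : ℤ) : ℤ := max A (min y (A + w))

theorem cl_lip (A w y z : ℤ) : |cl A w y - cl A w z| ≤ |y - z| := by
  unfold cl
  rw [abs_le]
  have h1 := abs_nonneg (y - z)
  have h2 := le_abs_self (y - z)
  have h3 := neg_abs_le (y - z)
  constructor
  · omega
  · omega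

theorem cl_low {A w y : ℤ} (hw : 0 ≤ w) (h : y ≤ A) : cl A w y = A := by
  unfold cl; omega

theorem cl_high {A w y : ℤ} (hw : 0 ≤ w) (h : A + w ≤ y) : cl A w y = A + w := by
  unfold cl; omega

theorem cl_mem {A w : ℤ} (hw : 0 ≤ w) (y : ℤ) : A ≤ cl A w y ∧ cl A w y ≤ A + w := by
  unfold cl; omega

/-- The potential. -/
def pot (m c : ℕ) (j : ℤ) (v : F) : ℤ :=
  act (j + 2 * c) (m - 4 * c) (xi m v j) (cl (j + 2 * c) (m - 4 * c) (H v))

theorem pot_step {m c : ℕ} (hm : 4 * c < m) (j : ℤ) (v : F) {s : F} (hs : s ∈ Ball SF c) :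
    |pot m c j (v * s) - pot m c j v| ≤ |H s| := by
  have hw : (0 : ℤ) ≤ m - 4 * c := by omega
  have hHs := ball_H hs
  have hHs1 := le_abs_self (H s)
  have hHs2 := neg_abs_le (H s)
  unfold pot
  rw [xi_mul, act_mul, H_mul]
  by_cases h1 : |j - H v| ≤ (c : ℤ)
  · have h2 := abs_le.1 h1
    have hz : xi m s (j - H v) = 1 ∨ xi m s (j - H v) = al := by
      apply loc_left hs
      have h3 : (c : ℤ) < j - H v + m := by omega
      exact lt_of_lt_of_le h3 (le_abs_self _)
    rw [cl_low hw (by omega), cl_low hw (by omega)]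
    have hA : act (j + 2 * c) (m - 4 * c) (xi m s (j - H v)) (j + 2 * c) = j + 2 * c := by
      rcases hz with hz | hz <;> rw [hz]
      · exact act_one _ _ _
      · exact act_al _ _
    rw [hA, sub_self, abs_zero]
    exact abs_nonneg _
  · by_cases h2 : |j - H v + m| ≤ (c : ℤ)
    · have h3 := abs_le.1 h2
      have hz : xi m s (j - H v) = 1 ∨ xi m s (j - H v) = be := by
        apply loc_right hs
        exact not_le.1 h1
      rw [cl_high hw (by omega), cl_high hw (by omega)]
      have hA : act (j + 2 * c) (m - 4 * c) (xi m s (j - H v)) (j + 2 * c + (m - 4 * c)) =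
          j + 2 * c + (m - 4 * c) := by
        rcases hz with hz | hz <;> rw [hz]
        · exact act_one _ _ _
        · exact act_be _ _
      rw [hA, sub_self, abs_zero]
      exact abs_nonneg _
    · have hz : xi m s (j - H v) = 1 := by
        rcases loc_left (m := m) hs (j - H v) (not_le.1 h2) with h | h
        · exact h
        · rcases loc_right (m := m) hs (j - H v) (not_le.1 h1) with h' | h'
          · exact h'
          · exfalso
            rw [h] at h'
            have := congrArg Dh.c h'
            simp [al, be] at this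
      rw [hz, act_one, act_sub]
      refine (cl_lip _ _ _ _).trans ?_
      have e : H v + H s - H v = H s := by ring
      rw [e]

theorem pot_ball {m c s0 : ℕ} (hm : 4 * c < m) {S : Set F} (hSc : ∀ s ∈ S, s ∈ Ball SF c)
    (hS0 : ∀ s ∈ S, |H s| ≤ (s0 : ℤ)) (j : ℤ) {N : ℕ} {w : F} (hw : w ∈ Ball S N) :
    |pot m c j w - pot m c j 1| ≤ (s0 : ℤ) * N := by
  induction N generalizing w with
  | zero =>
    have : w = 1 := hw
    subst this
    rw [sub_self, abs_zero]; simp
  | succ N ih =>
    obtain ⟨v, hv, s, hs, rfl⟩ := hw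
    have h1 := ih hv
    have h2 := (pot_step hm j v (hSc s hs)).trans (hS0 s hs)
    have e : pot m c j (v * s) - pot m c j 1 =
      (pot m c j (v * s) - pot m c j v) + (pot m c j v - pot m c j 1) := by ring
    rw [e]
    refine (abs_add_le _ _).trans ?_
    push_cast
    linarith

theorem pot_one (m c : ℕ) (j : ℤ) : pot m c j 1 = cl (j + 2 * c) (m - 4 * c) 0 := by
  unfold pot
  rw [xi_one, act_one, H_one]

end Pool.Agent.Y975.RD
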