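import Mathlib
import Pool.Agent.Y975.RD.Pot

/-!
The alternating words and their lifts.
-/

set_option autoImplicit false

namespace Pool.Agent.Y975.RD

open Pool.Agent.Helper376.Lac (fa ft SF Win WinZ hF free_ext hF_fa hF_ft SF_one SF_inv)
open Pool.Agent.Helper376.DL (Ball ball_succ ball_mono ball_add ball_mono_succ)
open Dh

/-- Left end first. -/
def VL (p : ℕ) : F := xx (-(p : ℤ)) * xx p
/-- Right end first. -/
def VR (p : ℕ) : F := xx p * xx (-(p : ℤ))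

theorem H_VL (p : ℕ) : H (VL p) = 0 := by unfold VL; rw [H_mul, H_xx, H_xx]; rfl
theorem H_VR (p : ℕ) : H (VR p) = 0 := by unfold VR; rw [H_mul, H_xx, H_xx]; rfl

theorem xi_VL (p : ℕ) (j : ℤ) : xi (2 * p) (VL p) j = mu (2 * p) (j + p) * mu (2 * p) (j - p) := by
  unfold VL
  rw [xi_mul, H_xx, sub_zero, xi_xx, xi_xx, sub_neg_eq_add]

theorem xi_VR (p : ℕ) (j : ℤ) : xi (2 * p) (VR p) j = mu (2 * p) (j - p) * mu (2 * p) (j + p) := by
  unfold VR
  rw [xi_mul, H_xx, sub_zero, xi_xx, xi_xx, sub_neg_eq_add]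

theorem xi_VL_left {p : ℕ} (hp : 0 < p) : xi (2 * p) (VL p) (-(p : ℤ)) = al * be := by
  rw [xi_VL]
  unfold mu
  rw [if_pos (by omega), if_neg (by omega), if_pos (by push_cast; omega)]

theorem xi_VR_left {p : ℕ} (hp : 0 < p) : xi (2 * p) (VR p) (-(p : ℤ)) = be * al := by
  rw [xi_VR]
  unfold mu
  rw [if_neg (by omega), if_pos (by push_cast; omega), if_pos (by omega)]

theorem xi_V_other {p : ℕ} {j : ℤ} (hj : j ≠ -(p : ℤ)) :
    xi (2 * p) (VL p) j = xi (2 * p) (VR p) j := by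
  rw [xi_VL, xi_VR]
  by_cases h : mu (2 * p) (j + p) = 1
  · rw [h, one_mul, mul_one]
  · have h2 : mu (2 * p) (j - p) = 1 := by
      apply mu_eq_one
      · intro h3
        apply h
        apply mu_eq_one
        · omega
        · push_cast; omega
      · push_cast; omega
    rw [h2, one_mul, mul_one]

theorem xi_VL_cases {p : ℕ} (hp : 0 < p) {j : ℤ} (hj : j ≠ -(p : ℤ)) :
    (j = p ∧ xi (2 * p) (VL p) j = al) ∨ (j = -3 * (p : ℤ) ∧ xi (2 * p) (VL p) j = be) ∨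
      (j ≠ p ∧ j ≠ -3 * (p : ℤ) ∧ xi (2 * p) (VL p) j = 1) := by
  rw [xi_VL]
  by_cases h1 : j = p
  · left
    refine ⟨h1, ?_⟩
    unfold mu
    rw [if_neg (by omega), if_neg (by push_cast; omega), if_pos (by omega), one_mul]
  · by_cases h2 : j = -3 * (p : ℤ)
    · right; left
      refine ⟨h2, ?_⟩
      unfold mu
      rw [if_neg (by omega), if_pos (by push_cast; omega), if_neg (by omega),
        if_neg (by push_cast; omega), mul_one]
    · right; right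
      refine ⟨h1, h2, ?_⟩
      rw [mu_eq_one (by omega) (by push_cast; omega), mu_eq_one (by omega) (by push_cast; omega),
        one_mul]

theorem xi_win_one {p : ℕ} {M : ℕ} (hM : M < p) {μ : F} (hμ : μ ∈ WI (-(M : ℤ)) M) {j : ℤ}
    (hj : j = -(p : ℤ) ∨ j = p ∨ j = -3 * (p : ℤ)) : xi (2 * p) μ j = 1 := by
  have h1 : ¬ (-(M : ℤ) ≤ j + (2 * p : ℕ) ∧ j + (2 * p : ℕ) ≤ (M : ℤ)) := by
    push_cast; omega
  have h2 : ¬ (-(M : ℤ) ≤ j ∧ j ≤ (M : ℤ)) := by omega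
  rw [xi_left hμ j h1, WI_par hμ j h2, if_pos rfl]

theorem xi_win_cases {p : ℕ} {M : ℕ} (hM : M < p) {μ : F} (hμ : μ ∈ WI (-(M : ℤ)) M) (j : ℤ) :
    xi (2 * p) μ j = 1 ∨ xi (2 * p) μ j = al ∨ xi (2 * p) μ j = be := by
  by_cases h : -(M : ℤ) ≤ j + (2 * p : ℕ) ∧ j + (2 * p : ℕ) ≤ (M : ℤ)
  · have h2 : ¬ (-(M : ℤ) ≤ j ∧ j ≤ (M : ℤ)) := by push_cast at h; omega
    rw [xi_right hμ j h2]
    split_ifs <;> simp
  · rw [xi_left hμ j h]
    split_ifs <;> simp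

theorem al_pow (k : ℕ) : al ^ k = 1 ∨ al ^ k = al := by
  induction k with
  | zero => left; exact pow_zero _
  | succ k ih =>
    rcases ih with h | h <;> rw [pow_succ, h]
    · right; exact one_mul _
    · left; exact al_sq

theorem be_pow (k : ℕ) : be ^ k = 1 ∨ be ^ k = be := by
  induction k with
  | zero => left; exact pow_zero _
  | succ k ih =>
    rcases ih with h | h <;> rw [pow_succ, h]
    · right; exact one_mul _
    · left; exact be_sq

/-- Values of the cocycle on `VL ^ k * μ` away from the main coordinate. -/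
theorem xi_main_cases {p k M : ℕ} (hp : 0 < p) (hM : M < p) {μ : F}
    (hμ : μ ∈ WI (-(M : ℤ)) M) {j : ℤ} (hj : j ≠ -(p : ℤ)) :
    xi (2 * p) (VL p ^ k * μ) j = 1 ∨ xi (2 * p) (VL p ^ k * μ) j = al ∨
      xi (2 * p) (VL p ^ k * μ) j = be := by
  rw [xi_mul, H_pow, H_VL, mul_zero, sub_zero, xi_pow (H_VL p)]
  rcases xi_VL_cases hp hj with ⟨h1, h2⟩ | ⟨h1, h2⟩ | ⟨h1, h2, h3⟩
  · rw [h2, xi_win_one hM hμ (Or.inr (Or.inl h1)), mul_one]
    rcases al_pow k with h | h <;> rw [h] <;> simp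
  · rw [h2, xi_win_one hM hμ (Or.inr (Or.inr h1)), mul_one]
    rcases be_pow k with h | h <;> rw [h] <;> simp
  · rw [h3, one_pow, one_mul]
    exact xi_win_cases hM hμ j

theorem xi_main_left {p k M : ℕ} (hp : 0 < p) (hM : M < p) {μ : F}
    (hμ : μ ∈ WI (-(M : ℤ)) M) : xi (2 * p) (VL p ^ k * μ) (-(p : ℤ)) = ⟨1, -2 * k⟩ := by
  rw [xi_mul, H_pow, H_VL, mul_zero, sub_zero, xi_pow (H_VL p), xi_VL_left hp,
    xi_win_one hM hμ (Or.inl rfl), mul_one, ab_pow]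

theorem xi_main_left' {p k M : ℕ} (hp : 0 < p) (hM : M < p) {μ : F}
    (hμ : μ ∈ WI (-(M : ℤ)) M) : xi (2 * p) (VR p ^ k * μ) (-(p : ℤ)) = ⟨1, 2 * k⟩ := by
  rw [xi_mul, H_pow, H_VR, mul_zero, sub_zero, xi_pow (H_VR p), xi_VR_left hp,
    xi_win_one hM hμ (Or.inl rfl), mul_one, ba_pow]

theorem xi_main_other {p k : ℕ} {μ : F} {j : ℤ} (hj : j ≠ -(p : ℤ)) :
    xi (2 * p) (VR p ^ k * μ) j = xi (2 * p) (VL p ^ k * μ) j := by
  rw [xi_mul, xi_mul, H_pow, H_pow, H_VL, H_VR, mul_zero, sub_zero, xi_pow (H_VL p),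
    xi_pow (H_VR p), xi_V_other hj]

/-- The alternating words agree modulo `K`. -/
theorem V_pow_mem {K : Subgroup F} (hK : K.Normal) {p : ℕ}
    (hc : xx (-(p : ℤ)) * xx p * (xx (-(p : ℤ)))⁻¹ * (xx p)⁻¹ ∈ K) (k : ℕ) :
    (VR p ^ k)⁻¹ * VL p ^ k ∈ K := by
  have h1 : QuotientGroup.mk' K (VL p) = QuotientGroup.mk' K (VR p) := by
    rw [QuotientGroup.mk'_apply, QuotientGroup.mk'_apply]
    apply Eq.symm
    rw [QuotientGroup.eq]
    have h2 := hK.conj_mem _ hc (VR p)⁻¹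
    have e : (VR p)⁻¹ * (xx (-(p : ℤ)) * xx p * (xx (-(p : ℤ)))⁻¹ * (xx p)⁻¹) * (VR p)⁻¹⁻¹ =
        (VR p)⁻¹ * VL p := by
      unfold VR VL; group
    rw [e] at h2
    exact h2
  have h3 : QuotientGroup.mk' K (VR p ^ k) = QuotientGroup.mk' K (VL p ^ k) := by
    rw [map_pow, map_pow, h1]
  rw [QuotientGroup.mk'_apply, QuotientGroup.mk'_apply] at h3
  exact QuotientGroup.eq.1 h3

theorem abs_aux {k w n e q : ℤ} (hk : 1 ≤ k) (hw : 0 < w) (he : |e| ≤ 2 * w)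
    (hq : |e + 4 * k * w * n| ≤ q) (hq2 : q < (4 * k - 2) * w) : n = 0 := by
  have h1 := abs_le.1 he
  have h2 := abs_le.1 hq
  have hkw : 0 < k * w := by positivity
  by_contra hn
  rcases lt_or_gt_of_ne hn with h | h
  · have h3 : 4 * k * w * n ≤ -(4 * k * w) := by nlinarith
    nlinarith
  · have h3 : 4 * k * w ≤ 4 * k * w * n := by nlinarith
    nlinarith

theorem abs_aux2 {k w n q : ℤ} (hk : 1 ≤ k) (hw : 0 < w)
    (hq : |w * (-2 * k + 4 * k * n)| ≤ q) (hq2 : q < (4 * k - 2) * w) : n = 0 ∨ n = 1 := by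
  have h2 := abs_le.1 hq
  have hkw : 0 < k * w := by positivity
  by_contra hn
  push Not at hn
  have : n ≤ -1 ∨ 2 ≤ n := by omega
  rcases this with h | h
  · have h3 : 4 * (k * w) * n ≤ 4 * (k * w) * (-1) := by nlinarith
    nlinarith
  · have h3 : 4 * (k * w) * 2 ≤ 4 * (k * w) * n := by nlinarith
    nlinarith

/-- Short words in the finite level lift to the infinite level. -/
theorem lift_alt {K : Subgroup F} (hK : Good K) {p c k M s0 : ℕ}
    (hcm : xx (-(p : ℤ)) * xx p * (xx (-(p : ℤ)))⁻¹ * (xx p)⁻¹ ∈ K)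
    (hpc : 2 * c < p) (hM : M < p) (hk : 1 ≤ k) {μ : F} (hμ : μ ∈ WI (-(M : ℤ)) M) {S : Set F}
    (hSc : ∀ s ∈ S, s ∈ Ball SF c) (hS0 : ∀ s ∈ S, |H s| ≤ (s0 : ℤ)) {N : ℕ} {w' : F}
    (hw' : w' ∈ Ball S N) (hmem : (VL p ^ k * μ)⁻¹ * w' ∈ KK (2 * p) k K)
    (hN : (s0 : ℤ) * N < (4 * k - 2) * (2 * p - 4 * c)) :
    (VL p ^ k * μ)⁻¹ * w' ∈ KK (2 * p) 0 K ∨ (VR p ^ k * μ)⁻¹ * w' ∈ KK (2 * p) 0 K := by
  have hp : 0 < p := by omega
  obtain ⟨hmK, hmH, hmI⟩ := hmem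
  have hHg : H (VL p ^ k * μ) = 0 := by rw [H_mul, H_pow, H_VL, WI_H hμ]; ring
  have hHg' : H (VR p ^ k * μ) = 0 := by rw [H_mul, H_pow, H_VR, WI_H hμ]; ring
  have hHw : H w' = 0 := by
    rw [H_mul, H_inv, hHg] at hmH
    simpa using hmH
  have hz : ∀ j, xi (2 * p) ((VL p ^ k * μ)⁻¹ * w') j =
      (xi (2 * p) (VL p ^ k * μ) j)⁻¹ * xi (2 * p) w' j := by
    intro j
    rw [xi_mul, xi_inv, H_inv, hHg, neg_zero, sub_zero, add_zero]
  have hz' : ∀ j, xi (2 * p) ((VR p ^ k * μ)⁻¹ * w') j =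
      (xi (2 * p) (VR p ^ k * μ) j)⁻¹ * xi (2 * p) w' j := by
    intro j
    rw [xi_mul, xi_inv, H_inv, hHg', neg_zero, sub_zero, add_zero]
  have hww : ∀ j, xi (2 * p) w' j =
      xi (2 * p) (VL p ^ k * μ) j * xi (2 * p) ((VL p ^ k * μ)⁻¹ * w') j := by
    intro j; rw [hz]; group
  have hkz : (1 : ℤ) ≤ k := by exact_mod_cast hk
  have hwpos : (0 : ℤ) < 2 * p - 4 * c := by omega
  -- the potential bound
  have hpot : ∀ j : ℤ, |act (j + 2 * c) (2 * p - 4 * c) (xi (2 * p) w' j)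
      (cl (j + 2 * c) (2 * p - 4 * c) 0) - cl (j + 2 * c) (2 * p - 4 * c) 0| ≤ (s0 : ℤ) * N := by
    intro j
    have h := pot_ball (m := 2 * p) (by omega) hSc hS0 j hw'
    rw [pot_one] at h
    unfold pot at h
    rw [hHw] at h
    push_cast at h
    exact h
  have hoff : ∀ j : ℤ, j ≠ -(p : ℤ) → xi (2 * p) ((VL p ^ k * μ)⁻¹ * w') j = 1 := by
    intro j hj
    obtain ⟨hs, n, hn⟩ := hmI j
    have h := hpot j
    rw [hww j, act] at h
    have hcl := cl_mem (A := j + 2 * c) hwpos.le 0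
    obtain ⟨q, hq⟩ : ∃ q, q = cl (j + 2 * c) (2 * p - 4 * c) 0 := ⟨_, rfl⟩
    rw [← hq] at h hcl
    rw [mul_s, mul_c, hs, hn] at h
    have hn0 : n = 0 := by
      rcases xi_main_cases (k := k) hp hM hμ hj with h1 | h1 | h1 <;> rw [h1] at h
      · refine abs_aux (e := 0) hkz hwpos (by rw [abs_zero]; linarith) ?_ hN
        refine le_of_eq_of_le ?_ h
        congr 1
        rw [one_s, one_c]; push_cast; ring
      · refine abs_aux (n := n) (e := 2 * (q - (j + 2 * c))) hkz hwpos ?_ ?_ hN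
        · rw [abs_le]; constructor <;> linarith
        · refine le_of_eq_of_le ?_ h
          rw [← abs_neg]
          congr 1
          simp only [al]; push_cast; ring
      · refine abs_aux (n := n) (e := -(2 * (j + 2 * c + (2 * p - 4 * c) - q))) hkz hwpos ?_ ?_ hN
        · rw [abs_le]; constructor <;> linarith
        · refine le_of_eq_of_le ?_ h
          rw [← abs_neg]
          congr 1
          simp only [be]; push_cast; ring
    ext
    · rw [hs]; rfl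
    · rw [hn, hn0, mul_zero]; rfl
  have hmain : xi (2 * p) ((VL p ^ k * μ)⁻¹ * w') (-(p : ℤ)) = 1 ∨
      xi (2 * p) ((VL p ^ k * μ)⁻¹ * w') (-(p : ℤ)) = ⟨1, 4 * k⟩ := by
    obtain ⟨hs, n, hn⟩ := hmI (-(p : ℤ))
    have h := hpot (-(p : ℤ))
    rw [hww, act] at h
    obtain ⟨q, hq⟩ : ∃ q, q = cl (-(p : ℤ) + 2 * c) (2 * p - 4 * c) 0 := ⟨_, rfl⟩
    rw [← hq] at h
    rw [mul_s, mul_c, hs, hn, xi_main_left hp hM hμ] at h
    have hn0 : n = 0 ∨ n = 1 := by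
      refine abs_aux2 (k := k) hkz hwpos ?_ hN
      refine le_of_eq_of_le ?_ h
      congr 1
      push_cast; ring
    rcases hn0 with h0 | h0
    · left
      ext
      · rw [hs]; rfl
      · rw [hn, h0, mul_zero]; rfl
    · right
      ext
      · rw [hs]
      · rw [hn, h0, mul_one]
  rcases hmain with h1 | h1
  · left
    refine ⟨hmK, hmH, fun j => ?_⟩
    by_cases hj : j = -(p : ℤ)
    · rw [hj, h1]; exact Ink_one 0
    · rw [hoff j hj]; exact Ink_one 0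
  · right
    refine ⟨?_, ?_, fun j => ?_⟩
    · have h2 := hK.nor.conj_mem _ (V_pow_mem hK.nor hcm k) μ⁻¹
      have h3 := K.mul_mem h2 hmK
      have e : μ⁻¹ * ((VR p ^ k)⁻¹ * VL p ^ k) * μ⁻¹⁻¹ * ((VL p ^ k * μ)⁻¹ * w') =
          (VR p ^ k * μ)⁻¹ * w' := by group
      rw [e] at h3
      exact h3
    · rw [H_mul, H_inv, hHg', hHw]; rfl
    · by_cases hj : j = -(p : ℤ)
      · subst hj
        have e : xi (2 * p) ((VR p ^ k * μ)⁻¹ * w') (-(p : ℤ)) = 1 := by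
          rw [hz', hww, h1, xi_main_left hp hM hμ, xi_main_left' hp hM hμ]
          ext
          · simp [mul_s, inv_s, one_s]
          · simp [mul_s, mul_c, inv_s, inv_c, one_c]; ring
        rw [e]; exact Ink_one 0
      · have e : xi (2 * p) ((VR p ^ k * μ)⁻¹ * w') j = 1 := by
          rw [hz', xi_main_other hj, ← hz, hoff j hj]
        rw [e]; exact Ink_one 0

end Pool.Agent.Y975.RD
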