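import Mathlib
import Pool.Agent.Y975.RD.Words
import Pool.Agent.Y975.RD.Arith

/-!
Existence of deep pockets in the next level.
-/

set_option autoImplicit false

namespace Pool.Agent.Y975.RD

open Pool.Agent.Helper376.Lac (fa ft SF Win WinZ hF free_ext hF_fa hF_ft SF_one SF_inv SF_finite
  ball_decomp short_window ball_finite)
open Pool.Agent.Helper376.DL (Ball ball_succ ball_mono ball_add ball_mono_succ)
open Dh

/-- A pocket of depth `d`, seen in a finite part of the Cayley graph. -/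
def Pocket (K : Subgroup F) (S : Set F) (d : ℕ) : Prop :=
  ∃ (R z : ℕ) (X : Set F), X ⊆ Ball S R ∧ (∃ g0 ∈ X, ¬ BK K S g0 (z + d)) ∧
    ∀ w ∈ X, ∀ s ∈ S, (∃ w' ∈ X, (w * s)⁻¹ * w' ∈ K) ∨ BK K S (w * s) z

theorem exists_ball (w : F) : ∃ k, w ∈ Ball SF k := by
  have h : w ∈ Subgroup.closure (Set.range (FreeGroup.of : Fin 2 → FreeGroup (Fin 2))) := by
    rw [FreeGroup.closure_range_of]; trivial
  induction h using Subgroup.closure_induction with
  | mem x hx =>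
    obtain ⟨i, rfl⟩ := hx
    refine ⟨1, 1, rfl, FreeGroup.of i, ?_, by simp⟩
    fin_cases i
    · simp [SF, fa]
    · simp [SF, ft]
  | one => exact ⟨0, rfl⟩
  | mul x y _ _ h1 h2 =>
    obtain ⟨k, hk⟩ := h1
    obtain ⟨l, hl⟩ := h2
    exact ⟨k + l, ball_add hk hl⟩
  | inv x _ h1 =>
    obtain ⟨k, hk⟩ := h1
    exact ⟨k, ball_inv hk⟩

theorem exists_c {S : Set F} (hfin : S.Finite) : ∃ c, ∀ s ∈ S, s ∈ Ball SF c := by
  choose g hg using exists_ball
  obtain ⟨r, hr⟩ := (hfin.image g).bddAbove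
  exact ⟨r, fun s hs => ball_mono SF_one (hr ⟨s, hs, rfl⟩) (hg s)⟩

theorem Win_le (n : ℕ) : Win n ≤ WI 0 n := by
  apply Subgroup.closure_mono
  rintro y ⟨j, hj, rfl⟩
  refine ⟨j, by omega, by exact_mod_cast hj, ?_⟩
  unfold xx
  rw [zpow_natCast]

theorem WinZ_le (n : ℕ) : WinZ n ≤ WI (-(n : ℤ)) n := by
  apply Subgroup.closure_mono
  rintro y ⟨j, hj1, hj2, rfl⟩
  exact ⟨j, hj1, hj2, rfl⟩

theorem hF_of_H {w : F} (h : H w = 0) : hF w = 1 := by
  unfold H at h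
  exact toAdd_eq_zero.1 h

theorem agree_ball {m k : ℕ} {K : Subgroup F} (hK : Good K) {R : ℕ} (hm : 2 * R < m) {w : F}
    (hw : w ∈ Ball SF R) (hwK : w ∈ K) : w ∈ KK m k K := by
  have h1 := short_window hw (hF_of_H (hK.p0 w hwK))
  have h2 := Win_le _ h1
  have h3 : ft ^ R * w * (ft ^ R)⁻¹ ∈ K := hK.nor.conj_mem w hwK _
  have h4 := agree (m := m) (k := k) hK (by push_cast; omega) h2 h3
  have h5 := (KK_normal m k hK.nor).conj_mem _ h4 (ft ^ R)⁻¹
  have e : (ft ^ R)⁻¹ * (ft ^ R * w * (ft ^ R)⁻¹) * (ft ^ R)⁻¹⁻¹ = w := by group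
  rw [e] at h5
  exact h5

theorem decomp {c : ℕ} {w : F} (hw : w ∈ Ball SF c) :
    ∃ ν ∈ WI (-(c : ℤ)) c, w = ν * ft ^ H w := by
  obtain ⟨h, _, ν, hν, e⟩ := ball_decomp hw
  have hν' := WinZ_le c hν
  have : H w = h := by rw [e, H_mul, WI_H hν', H_ft_zpow, zero_add]
  exact ⟨ν, hν', by rw [this]; exact e⟩

theorem pow_decomp {c : ℕ} {s : F} (hs : s ∈ Ball SF c) (n : ℕ) :
    ∃ σ ∈ WI (-((c : ℤ) + n * |H s|)) (c + n * |H s|), s ^ n = σ * ft ^ (n * H s) := by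
  obtain ⟨ν, hν, e⟩ := decomp hs
  induction n with
  | zero => exact ⟨1, Subgroup.one_mem _, by simp⟩
  | succ n ih =>
    obtain ⟨σ, hσ, e2⟩ := ih
    refine ⟨σ * (ft ^ (n * H s) * ν * (ft ^ (n * H s))⁻¹), ?_, ?_⟩
    · have hn0 : (0 : ℤ) ≤ |H s| := abs_nonneg _
      have h1 : (n : ℤ) * H s ≤ n * |H s| :=
        mul_le_mul_of_nonneg_left (le_abs_self _) (by positivity)
      have h2 : -((n : ℤ) * |H s|) ≤ n * H s := by
        have := mul_le_mul_of_nonneg_left (neg_abs_le (H s)) (by positivity : (0 : ℤ) ≤ n)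
        linarith
      refine Subgroup.mul_mem _ (WI_mono ?_ ?_ hσ) (WI_mono ?_ ?_ (WI_conj _ hν))
      · push_cast; nlinarith
      · push_cast; nlinarith
      · push_cast; nlinarith
      · push_cast; nlinarith
    · rw [pow_succ, e2]
      nth_rewrite 2 [e]
      have e3 : (((n + 1 : ℕ) : ℤ) * H s) = n * H s + H s := by push_cast; ring
      rw [e3, zpow_add]
      group

theorem sq_mem {K : Subgroup F} (hK : Good K) (m k : ℕ) (i : ℤ) : xx i * xx i ∈ KK m k K := by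
  have h0 : xx 0 * xx 0 ∈ KK m k K := by
    refine ⟨hK.p3, by rw [H_mul, H_xx]; rfl, fun l => ?_⟩
    rw [xi_mul, H_xx, sub_zero, xi_xx, mu_sq]
    exact Ink_one k
  have h1 := (KK_normal m k hK.nor).conj_mem _ h0 (ft ^ i)
  have e : ft ^ i * (xx 0 * xx 0) * (ft ^ i)⁻¹ =
      (ft ^ i * xx 0 * (ft ^ i)⁻¹) * (ft ^ i * xx 0 * (ft ^ i)⁻¹) := by group
  rw [e, xx_conj, add_zero] at h1
  exact h1

/-- Commutation of a lamp with a window modulo a normal subgroup. -/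
theorem comm_window {K : Subgroup F} [K.Normal] {lo hi i : ℤ}
    (h : ∀ j, lo ≤ j → j ≤ hi → xx i * xx j * (xx i)⁻¹ * (xx j)⁻¹ ∈ K) {μ : F}
    (hμ : μ ∈ WI lo hi) :
    QuotientGroup.mk' K (xx i) * QuotientGroup.mk' K μ =
      QuotientGroup.mk' K μ * QuotientGroup.mk' K (xx i) := by
  unfold WI at hμ
  induction hμ using Subgroup.closure_induction with
  | mem y hy =>
    obtain ⟨j, h1, h2, rfl⟩ := hy
    have h3 := h j h1 h2
    rw [← QuotientGroup.eq_one_iff, ← QuotientGroup.mk'_apply] at h3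
    simp only [map_mul, map_inv] at h3
    rw [mul_inv_eq_one, mul_inv_eq_iff_eq_mul] at h3
    exact h3
  | one => simp
  | mul y z _ _ h1 h2 =>
    rw [map_mul, ← mul_assoc, h1, mul_assoc, h2, ← mul_assoc]
  | inv y _ h1 =>
    rw [map_inv]
    have h2 : Commute (QuotientGroup.mk' K (xx i)) (QuotientGroup.mk' K y) := h1
    exact h2.inv_right.eq

theorem BK_SF {K : Subgroup F} (hK : K.Normal) {S : Set F} (h1 : (1 : F) ∈ S)
    (hS : ∀ s ∈ S, s⁻¹ ∈ S) {T : ℕ}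
    (ha : BK K S fa T) (ht : BK K S ft T) {w : F} {n : ℕ} (hw : w ∈ Ball SF n) :
    BK K S w (T * n) := by
  induction n generalizing w with
  | zero =>
    have : w = 1 := hw
    subst this
    exact BK.of_ball rfl
  | succ n ih =>
    obtain ⟨v, hv, u, hu, rfl⟩ := hw
    have h2 : BK K S u T := by
      simp only [SF, Set.mem_insert_iff, Set.mem_singleton_iff] at hu
      rcases hu with rfl | rfl | rfl | rfl | rfl
      · exact BK.mono h1 (Nat.zero_le T) (BK.of_ball rfl)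
      · exact ha
      · exact BK.inv hK hS ha
      · exact ht
      · exact BK.inv hK hS ht
    have := BK.mul hK (ih hv) h2
    rw [Nat.mul_succ]
    exact this

/-- A generator of maximal height. -/
theorem exists_speed {K : Subgroup F} (hK : Good K) {S : Set F} (hfin : S.Finite)
    (h1 : (1 : F) ∈ S) (hS : ∀ s ∈ S, s⁻¹ ∈ S) {T : ℕ} (ht : BK K S ft T) :
    ∃ s0 : ℕ, 1 ≤ s0 ∧ (∀ s ∈ S, |H s| ≤ (s0 : ℤ)) ∧ ∃ sp ∈ S, H sp = s0 := by
  obtain ⟨s, hs, hmax⟩ := Set.exists_max_image S (fun s => |H s|) hfin ⟨1, h1⟩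
  refine ⟨(H s).natAbs, ?_, ?_, ?_⟩
  · by_contra hcon
    have h0 : H s = 0 := by omega
    have hall : ∀ s' ∈ S, H s' = 0 := by
      intro s' hs'
      have := hmax s' hs'
      simp only [h0, abs_zero] at this
      exact abs_eq_zero.1 (le_antisymm this (abs_nonneg _))
    have hball : ∀ n, ∀ w ∈ Ball S n, H w = 0 := by
      intro n
      induction n with
      | zero =>
        intro w hw
        have : w = 1 := hw
        rw [this, H_one]
      | succ n ih =>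
        rintro _ ⟨v, hv, u, hu, rfl⟩
        rw [H_mul, ih v hv, hall u hu]; rfl
    obtain ⟨wt, hwt, hk⟩ := ht
    have h2 := hK.p0 _ hk
    rw [H_mul, H_inv, H_ft, hball T wt hwt] at h2
    omega
  · intro s' hs'
    have := hmax s' hs'
    rw [Int.natCast_natAbs]
    exact this
  · rcases le_total 0 (H s) with h | h
    · exact ⟨s, hs, by omega⟩
    · exact ⟨s⁻¹, hS s hs, by rw [H_inv]; omega⟩

/-- The linear bound for windows. -/
theorem window_bound {K : Subgroup F} (hK : Good K) {C : ℕ}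
    (hC : ∀ n : ℕ, ∀ w ∈ WI 0 n, ∃ w' ∈ WI 0 n, w' ∈ Ball SF (C * (n + 1)) ∧ w' * w⁻¹ ∈ K)
    {m k Mw : ℕ} (hm : 2 * Mw < m) {S : Set F} (h1 : (1 : F) ∈ S)
    (hS : ∀ s ∈ S, s⁻¹ ∈ S) {T : ℕ} (ha : BK (KK m k K) S fa T) (ht : BK (KK m k K) S ft T)
    {μ : F} (hμ : μ ∈ WI (-(Mw : ℤ)) Mw) :
    BK (KK m k K) S μ (T * (C * (2 * Mw + 1) + 2 * Mw)) := by
  have hN := KK_normal m k hK.nor
  have h2 := WI_conj (Mw : ℤ) hμ
  have h3 := WI_mono (lo' := 0) (hi' := ((2 * Mw : ℕ) : ℤ)) (by omega) (by push_cast; omega) h2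
  obtain ⟨w', hw', hb, hk⟩ := hC _ _ h3
  have h4 : w' * (ft ^ (Mw : ℤ) * μ * (ft ^ (Mw : ℤ))⁻¹)⁻¹ ∈ KK m k K :=
    agree hK (by push_cast; omega) (Subgroup.mul_mem _ hw' (Subgroup.inv_mem _ h3)) hk
  have h5 : BK (KK m k K) S ((ft ^ (Mw : ℤ))⁻¹ * w' * ft ^ (Mw : ℤ))
      (T * (C * (2 * Mw + 1) + 2 * Mw)) := by
    have hb2 : (ft ^ (Mw : ℤ))⁻¹ * w' * ft ^ (Mw : ℤ) ∈ Ball SF (C * (2 * Mw + 1) + 2 * Mw) := by
      have h6 := ft_zpow_ball (Mw : ℤ)
      rw [Int.natAbs_natCast] at h6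
      have := ball_add (ball_add (ball_inv h6) hb) h6
      have e : Mw + C * (2 * Mw + 1) + Mw = C * (2 * Mw + 1) + 2 * Mw := by ring
      rw [e] at this
      exact this
    exact BK_SF hN h1 hS ha ht hb2
  refine BK.congr ?_ h5
  have h6 := hN.conj_mem _ h4 ((ft ^ (Mw : ℤ) * μ)⁻¹)
  have e : (ft ^ (Mw : ℤ) * μ)⁻¹ * (w' * (ft ^ (Mw : ℤ) * μ * (ft ^ (Mw : ℤ))⁻¹)⁻¹) *
      (ft ^ (Mw : ℤ) * μ)⁻¹⁻¹ = μ⁻¹ * ((ft ^ (Mw : ℤ))⁻¹ * w' * ft ^ (Mw : ℤ)) := by group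
  rw [e] at h6
  exact h6

end Pool.Agent.Y975.RD
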