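import Mathlib
import Pool.Agent.Y975.RD.Core

/-!
Existence of deep pockets in the next level: the assembly.
-/

set_option autoImplicit false

namespace Pool.Agent.Y975.RD

open Pool.Agent.Helper376.Lac (fa ft SF Win WinZ hF free_ext hF_fa hF_ft SF_one SF_inv SF_finite
  ball_decomp short_window ball_finite)
open Pool.Agent.Helper376.DL (Ball ball_succ ball_mono ball_add ball_mono_succ)
open Dh

theorem ball_trans {S : Set F} {c : ℕ} (h : ∀ s ∈ S, s ∈ Ball SF c) {n : ℕ} {w : F}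
    (hw : w ∈ Ball S n) : w ∈ Ball SF (c * n) := by
  induction n generalizing w with
  | zero => exact hw
  | succ n ih =>
    obtain ⟨x, hx, y, hy, rfl⟩ := hw
    exact ball_add (ih hx) (h y hy)

theorem ball_pow {G : Type} [Group G] {S : Set G} {n : ℕ} {g : G} (hg : g ∈ Ball S n) (k : ℕ) :
    g ^ k ∈ Ball S (k * n) := by
  induction k with
  | zero => rw [zero_mul]; exact pow_zero _
  | succ k ih => rw [pow_succ, Nat.succ_mul]; exact ball_add ih hg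

theorem V_pow_KK {K : Subgroup F} (hK : Good K) {p : ℕ} (hp : 0 < p)
    (hc : xx (-(p : ℤ)) * xx p * (xx (-(p : ℤ)))⁻¹ * (xx p)⁻¹ ∈ K) (k : ℕ) :
    (VR p ^ k)⁻¹ * VL p ^ k ∈ KK (2 * p) k K := by
  have hH : H (VR p ^ k) = 0 := by rw [H_pow, H_VR, mul_zero]
  have hH2 : H (VL p ^ k) = 0 := by rw [H_pow, H_VL, mul_zero]
  refine ⟨V_pow_mem hK.nor hc k, by rw [H_mul, H_inv, hH, hH2]; rfl, fun j => ?_⟩
  rw [xi_mul, xi_inv, H_inv, hH, neg_zero, sub_zero, add_zero, xi_pow (H_VR p), xi_pow (H_VL p)]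
  by_cases hj : j = -(p : ℤ)
  · subst hj
    rw [xi_VL_left hp, xi_VR_left hp, ab_pow, ba_pow]
    refine ⟨by simp [mul_s, inv_s], ?_⟩
    rw [mul_c, inv_c, inv_s]
    refine ⟨-1, ?_⟩
    simp; ring
  · rw [xi_V_other hj, inv_mul_cancel]
    exact Ink_one k

theorem pocket_exists {K : Subgroup F} (hK : Good K) {S : Set F} (hfin : S.Finite)
    (h1 : (1 : F) ∈ S) (hS : ∀ s ∈ S, s⁻¹ ∈ S) (hgen : ∃ T, BK K S fa T ∧ BK K S ft T)
    (ρ d : ℕ) : ∃ m k, ρ < m ∧ Good (KK m k K) ∧ Pocket (KK m k K) S d := by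
  obtain ⟨T, hTa, hTt⟩ := hgen
  obtain ⟨b, hb⟩ := hK.p2
  obtain ⟨C, hC⟩ := hK.p5
  obtain ⟨c, hc⟩ := exists_c hfin
  obtain ⟨s0, hs0, hS0, sp, hsp, hHsp⟩ := exists_speed hK hfin h1 hS hTt
  obtain ⟨β, hβ⟩ : ∃ β, β = b + 1 := ⟨_, rfl⟩
  obtain ⟨D, hD⟩ : ∃ D, D = T * (β + c) + d := ⟨_, rfl⟩
  obtain ⟨p0, hp0⟩ := arith s0 T C c β D
  obtain ⟨p, hp⟩ : ∃ p, p = p0 + ρ + b + β + 4 * c + 2 * (1 + c * T) + s0 + 10 := ⟨_, rfl⟩
  have hcT : 0 ≤ c * T := Nat.zero_le _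
  have hppos : 0 < p := by omega
  -- witnesses
  have hTa' : BK (KK (2 * p) 0 K) S fa T := by
    obtain ⟨w, hw, hk⟩ := hTa
    exact ⟨w, hw, agree_ball hK (R := 1 + c * T) (by omega)
      (ball_add (ball_inv fa_ball) (ball_trans hc hw)) hk⟩
  have hTt' : BK (KK (2 * p) 0 K) S ft T := by
    obtain ⟨w, hw, hk⟩ := hTt
    have h2 := ft_pow_ball 1
    rw [pow_one] at h2
    exact ⟨w, hw, agree_ball hK (R := 1 + c * T) (by omega)
      (ball_add (ball_inv h2) (ball_trans hc hw)) hk⟩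
  -- the run
  obtain ⟨n, hn⟩ : ∃ n, n = (p - (β + c)) / s0 := ⟨_, rfl⟩
  have hn1 : n * s0 ≤ p - (β + c) := by rw [hn]; exact Nat.div_mul_le_self _ _
  have hn2 : p - (β + c) < (n + 1) * s0 := by
    rw [hn, mul_comm]; exact Nat.lt_mul_div_succ _ (by omega)
  obtain ⟨r, hr⟩ : ∃ r, r = p - n * s0 := ⟨_, rfl⟩
  have hr1 : n * s0 + r = p := by omega
  have hr2 : r ≤ β + c + s0 := by
    rw [add_mul, one_mul] at hn2; omega
  obtain ⟨Mw, hMw⟩ : ∃ Mw, Mw = p - β := ⟨_, rfl⟩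
  have hMwp : Mw < p := by omega
  obtain ⟨h, hh⟩ : ∃ h, h = n + r * T := ⟨_, rfl⟩
  obtain ⟨hA2, hA1⟩ := hp0 p (by omega) n r h Mw hr1 hr2 hh (by omega)
  have hN0 : (KK (2 * p) 0 K).Normal := KK_normal _ _ hK.nor
  -- the two half passes
  obtain ⟨κR, hκR⟩ : ∃ κR, κR = sp ^ n * ft ^ (r : ℤ) := ⟨_, rfl⟩
  obtain ⟨κL, hκL⟩ : ∃ κL, κL = (sp⁻¹) ^ n * ft ^ (-(r : ℤ)) := ⟨_, rfl⟩
  have hrp : (n : ℤ) * s0 + r = p := by exact_mod_cast hr1
  have hcn : (c : ℤ) + n * s0 ≤ Mw := by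
    have : c + n * s0 ≤ Mw := by omega
    exact_mod_cast this
  obtain ⟨σR, hσR, heR⟩ : ∃ σ ∈ WI (-(Mw : ℤ)) Mw, κR = σ * ft ^ (p : ℤ) := by
    obtain ⟨σ, hσ, e⟩ := pow_decomp (hc sp hsp) n
    rw [hHsp, abs_of_nonneg (by positivity)] at hσ
    refine ⟨σ, WI_mono (by linarith) (by linarith) hσ, ?_⟩
    rw [hκR, e, hHsp, mul_assoc, ← zpow_add, hrp]
  obtain ⟨σL, hσL, heL⟩ : ∃ σ ∈ WI (-(Mw : ℤ)) Mw, κL = σ * ft ^ (-(p : ℤ)) := by
    obtain ⟨σ, hσ, e⟩ := pow_decomp (ball_inv (hc sp hsp)) n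
    rw [H_inv, hHsp, abs_neg, abs_of_nonneg (by positivity)] at hσ
    refine ⟨σ, WI_mono (by linarith) (by linarith) hσ, ?_⟩
    rw [hκL, e, H_inv, hHsp, mul_assoc, ← zpow_add]
    congr 2
    rw [← hrp]; ring
  have hspB : BK (KK (2 * p) 0 K) S sp 1 := BK.of_ball ⟨1, rfl, sp, hsp, by simp⟩
  have hbκR : BK (KK (2 * p) 0 K) S κR h := by
    have h2 := BK.mul hN0 (BK.pow hN0 hspB n)
      (BK_SF hN0 h1 hS hTa' hTt' (ft_zpow_ball (r : ℤ)))
    rw [← hκR] at h2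
    refine BK.mono h1 (le_of_eq ?_) h2
    rw [hh, Int.natAbs_natCast]; ring
  have hbκL : BK (KK (2 * p) 0 K) S κL h := by
    have h2 := BK.mul hN0 (BK.pow hN0 (BK.inv hN0 hS hspB) n)
      (BK_SF hN0 h1 hS hTa' hTt' (ft_zpow_ball (-(r : ℤ))))
    rw [← hκL] at h2
    refine BK.mono h1 (le_of_eq ?_) h2
    rw [hh, Int.natAbs_neg, Int.natAbs_natCast]; ring
  have hcomm : ∀ i : ℤ, (i = p ∨ i = -(p : ℤ)) → ∀ j, -(Mw : ℤ) ≤ j → j ≤ Mw →
      xx i * xx j * (xx i)⁻¹ * (xx j)⁻¹ ∈ KK (2 * p) 0 K := by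
    intro i hi j hj1 hj2
    have hM' : (Mw : ℤ) = p - β := by omega
    refine comm_KK 0 (by omega) (by push_cast; omega) (by push_cast; omega)
      (comm_far hK.nor hb i j ?_)
    rcases hi with rfl | rfl
    · rw [abs_of_nonneg (by omega)]; omega
    · rw [abs_of_nonpos (by omega)]; omega
  -- the quotient
  haveI := hN0
  obtain ⟨π, hπ⟩ : ∃ π : F →* F ⧸ KK (2 * p) 0 K, π = QuotientGroup.mk' (KK (2 * p) 0 K) :=
    ⟨_, rfl⟩
  have hmk : ∀ (w : F) (N : ℕ), π w ∈ Ball (π '' S) N ↔ BK (KK (2 * p) 0 K) S w N := by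
    intro w N; rw [hπ]; exact ball_mk
  have hcm : ∀ i : ℤ, (i = p ∨ i = -(p : ℤ)) → ∀ μ ∈ WI (-(Mw : ℤ)) Mw,
      π (xx i) * π μ = π μ * π (xx i) := by
    intro i hi μ hμ
    rw [hπ]
    exact comm_window (hcomm i hi) hμ
  have hsq : ∀ i : ℤ, π (xx i) * π (xx i) = 1 := by
    intro i
    rw [← map_mul, hπ, QuotientGroup.mk'_apply, QuotientGroup.eq_one_iff]
    exact sq_mem hK _ _ i
  have hSQ : ∀ s ∈ π '' S, s⁻¹ ∈ π '' S := by
    rintro _ ⟨s, hs, rfl⟩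
    exact ⟨s⁻¹, hS s hs, map_inv π s⟩
  have hκxL : π κL * π fa * (π κL)⁻¹ = π (xx (-(p : ℤ))) := by
    have e : π κL * π fa * (π κL)⁻¹ = π σL * π (xx (-(p : ℤ))) * (π σL)⁻¹ := by
      rw [heL, ← map_inv, ← map_mul, ← map_mul, ← map_inv, ← map_mul, ← map_mul]
      congr 1
      unfold xx; group
    rw [e, ← hcm _ (Or.inr rfl) σL hσL, mul_inv_cancel_right]
  have hκxR : π κR * π fa * (π κR)⁻¹ = π (xx (p : ℤ)) := by
    have e : π κR * π fa * (π κR)⁻¹ = π σR * π (xx (p : ℤ)) * (π σR)⁻¹ := by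
      rw [heR, ← map_inv, ← map_mul, ← map_mul, ← map_inv, ← map_mul, ← map_mul]
      congr 1
      unfold xx; group
    rw [e, ← hcm _ (Or.inl rfl) σR hσR, mul_inv_cancel_right]
  have hbfa : π fa ∈ Ball (π '' S) T := (hmk _ _).2 hTa'
  have hbL : π κL ∈ Ball (π '' S) h := (hmk _ _).2 hbκL
  have hbR : π κR ∈ Ball (π '' S) h := (hmk _ _).2 hbκR
  have hbx : π (xx (-(p : ℤ))) ∈ Ball (π '' S) (2 * h + T) := by
    rw [← hκxL]
    have := ball_add (ball_add hbL hbfa) (ball_inv_gen hSQ hbL)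
    have e : h + T + h = 2 * h + T := by ring
    rw [e] at this
    exact this
  have hby : π (xx (p : ℤ)) ∈ Ball (π '' S) (2 * h + T) := by
    rw [← hκxR]
    have := ball_add (ball_add hbR hbfa) (ball_inv_gen hSQ hbR)
    have e : h + T + h = 2 * h + T := by ring
    rw [e] at this
    exact this
  have hbxy : π (xx (-(p : ℤ))) * π (xx (p : ℤ)) ∈ Ball (π '' S) (4 * h + 2 * T) := by
    have := ball_add hbx hby
    have e : 2 * h + T + (2 * h + T) = 4 * h + 2 * T := by ring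
    rw [e] at this
    exact this
  have hbyx : π (xx (p : ℤ)) * π (xx (-(p : ℤ))) ∈ Ball (π '' S) (4 * h + 2 * T) := by
    have := ball_add hby hbx
    have e : 2 * h + T + (2 * h + T) = 4 * h + 2 * T := by ring
    rw [e] at this
    exact this
  have hbW : ∀ μ ∈ WI (-(Mw : ℤ)) Mw,
      BK (KK (2 * p) 0 K) S μ (T * (C * (2 * Mw + 1) + 2 * Mw)) := fun μ hμ =>
    window_bound hK hC (by omega) h1 hS hTa' hTt' hμ
  have hxyV : π (xx (-(p : ℤ))) * π (xx (p : ℤ)) = π (VL p) := by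
    rw [← map_mul]; rfl
  have hyxV : π (xx (p : ℤ)) * π (xx (-(p : ℤ))) = π (VR p) := by
    rw [← map_mul]; rfl
  -- telescoping
  have htele := telescope (S := π '' S) hSQ (W := π '' (WI (-(Mw : ℤ)) Mw : Set F))
    (a := π fa) (x := π (xx (-(p : ℤ)))) (y := π (xx (p : ℤ))) (κx := π κL) (κy := π κR)
    (hsq _) (hsq _)
    (by rintro _ ⟨μ, hμ, rfl⟩; exact hcm _ (Or.inr rfl) μ hμ)
    (by rintro _ ⟨μ, hμ, rfl⟩; exact hcm _ (Or.inl rfl) μ hμ)
    hκxL hκxR hbfa hbL hbR (k0 := kst s0 T C) (M := kend s0 T C) (B0 := Bst s0 T C h Mw) (D := D)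
    (by unfold kend; omega)
    (by
      rintro _ ⟨μ, hμ, rfl⟩
      have hbμ := (hmk _ _).2 (hbW μ hμ)
      constructor
      · have := ball_add (ball_add (ball_pow hbxy (kst s0 T C)) hbμ) hbR
        exact this
      · have := ball_add (ball_add (ball_pow hbyx (kst s0 T C)) hbμ) hbL
        exact this)
    (by
      refine ⟨1, ⟨1, Subgroup.one_mem _, map_one π⟩, ?_⟩
      intro hcon
      rw [mul_one, hxyV, ← map_pow, ← map_mul, hmk] at hcon
      obtain ⟨w', hw', hk⟩ := hcon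
      obtain ⟨N, hNdef⟩ : ∃ N, N = Bst s0 T C h Mw + (kend s0 T C - kst s0 T C) *
        (D + 3 * h + 2 * T) := ⟨_, rfl⟩
      rw [← hNdef] at hw' hA1
      obtain ⟨kk, hkk⟩ : ∃ kk, kk = kend s0 T C := ⟨_, rfl⟩
      rw [← hkk] at hk hA1
      have hpot := pot_ball (m := 2 * p) (by omega) hc hS0 (-(p : ℤ)) hw'
      have hHg : H (VL p ^ kk * κR) = p := by
        rw [H_mul, H_pow, H_VL, heR, H_mul, WI_H hσR, H_ft_zpow]; ring
      have hHw : H w' = p := by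
        have := hk.2.1
        rw [H_mul, H_inv, hHg] at this
        linarith
      have hxg : xi (2 * p) (VL p ^ kk * κR) (-(p : ℤ)) = ⟨1, -2 * kk⟩ := by
        have h3 := xi_main_left (k := kk) hppos hMwp hσR
        have h4 : VL p ^ kk * κR = (VL p ^ kk * σR) * ft ^ (p : ℤ) := by rw [heR, mul_assoc]
        rw [h4, xi_mul, h3]
        change _ * co (mu (2 * p)) (ft ^ (p : ℤ)) _ = _
        rw [co_ft_zpow, mul_one]
      have hxw : xi (2 * p) w' (-(p : ℤ)) = ⟨1, -2 * kk⟩ := by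
        have h5 := Ink_zero (hk.2.2 (-(p : ℤ) - p))
        rw [xi_mul, xi_inv, H_inv, hHg, sub_neg_eq_add, sub_add_cancel, hxg] at h5
        exact (inv_mul_eq_one.1 h5).symm
      rw [pot_one] at hpot
      unfold pot at hpot
      rw [hxw, hHw, cl_high (by push_cast; omega) (by push_cast; omega)] at hpot
      have hcl0 : cl (-(p : ℤ) + 2 * c) ((2 * p : ℕ) - 4 * c) 0 = 0 := by
        unfold cl; push_cast; omega
      rw [hcl0, sub_zero, act] at hpot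
      push_cast at hpot
      have hge : (4 * (kk : ℤ) - 1) * (p - 2 * c) ≤ (s0 : ℤ) * N := by
        refine le_trans ?_ hpot
        rw [← abs_neg]
        refine le_trans (le_of_eq ?_) (le_abs_self _)
        ring
      linarith)
  obtain ⟨k, hk1, hk2, hall, ⟨_, ⟨μ, hμ, rfl⟩, hnot1, hnot2⟩⟩ := htele
  obtain ⟨Z, hZ⟩ : ∃ Z, Z = Bst s0 T C h Mw + (k - kst s0 T C) * (D + 3 * h + 2 * T) := ⟨_, rfl⟩
  have hk0 : 1 ≤ k := by unfold kst at hk1; omega
  have hA3 := hA2 k hk1 hk2.le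
  rw [← hZ] at hall hnot1 hnot2 hA3
  have hNk : (KK (2 * p) k K).Normal := KK_normal _ _ hK.nor
  have hle : KK (2 * p) 0 K ≤ KK (2 * p) k K := KK_zero_le _ _ _
  have hcp : xx (-(p : ℤ)) * xx p * (xx (-(p : ℤ)))⁻¹ * (xx p)⁻¹ ∈ K := by
    apply comm_far hK.nor hb
    rw [abs_of_nonpos (by omega)]; omega
  refine ⟨2 * p, k, by omega, good_KK hK hb (by omega) hk0, ?_⟩
  -- the pocket
  obtain ⟨R, hR⟩ : ∃ R, R = k * (4 * h + 2 * T) + T * (C * (2 * Mw + 1) + 2 * Mw) + T * p :=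
    ⟨_, rfl⟩
  have hVB : BK (KK (2 * p) k K) S (VL p) (4 * h + 2 * T) := by
    have := (hmk (VL p) _).1 (by rw [← hxyV]; exact hbxy)
    exact BK.mono_K hle this
  have hrep : ∀ ν ∈ WI (-(Mw : ℤ)) Mw, ∀ y : ℤ, |y| ≤ p →
      ∃ w' ∈ Ball S R, (VL p ^ k * ν * ft ^ y)⁻¹ * w' ∈ KK (2 * p) k K := by
    intro ν hν y hy
    have h2 := BK.mul hNk (BK.mul hNk (BK.pow hNk hVB k) (BK.mono_K hle (hbW ν hν)))
      (BK_SF hNk h1 hS (BK.mono_K hle hTa') (BK.mono_K hle hTt') (ft_zpow_ball y))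
    refine BK.mono h1 ?_ h2
    rw [hR]
    have : y.natAbs ≤ p := by
      have : ((y.natAbs : ℕ) : ℤ) ≤ p := by rw [Int.natCast_natAbs]; exact hy
      exact_mod_cast this
    have := Nat.mul_le_mul_left T this
    omega
  refine ⟨R, Z + T * (β + c), {w' | w' ∈ Ball S R ∧ ∃ ν ∈ WI (-(Mw : ℤ)) Mw, ∃ y : ℤ,
    |y| ≤ (Mw : ℤ) - c ∧ (VL p ^ k * ν * ft ^ y)⁻¹ * w' ∈ KK (2 * p) k K},
    fun w hw => hw.1, ?_, ?_⟩
  · -- the centre
    obtain ⟨g0, hg0, hg0k⟩ := hrep μ hμ 0 (by rw [abs_zero]; positivity)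
    refine ⟨g0, ⟨hg0, μ, hμ, 0, by rw [abs_zero]; omega, hg0k⟩, ?_⟩
    rw [zpow_zero, mul_one] at hg0k
    rintro ⟨w', hw', hk'⟩
    have hZD : Z + T * (β + c) + d = Z + D := by rw [hD]; ring
    rw [hZD] at hw'
    have h3 : (VL p ^ k * μ)⁻¹ * w' ∈ KK (2 * p) k K := by
      have := (KK (2 * p) k K).mul_mem hg0k hk'
      have e : (VL p ^ k * μ)⁻¹ * g0 * (g0⁻¹ * w') = (VL p ^ k * μ)⁻¹ * w' := by group
      rw [e] at this
      exact this
    rcases lift_alt hK hcp (by omega) hMwp hk0 hμ hc hS0 hw' h3 hA3 with h4 | h4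
    · apply hnot1
      rw [hxyV, ← map_pow, ← map_mul, hmk]
      exact ⟨w', hw', h4⟩
    · apply hnot2
      rw [hyxV, ← map_pow, ← map_mul, hmk]
      exact ⟨w', hw', h4⟩
  · -- closure
    rintro w ⟨hw, ν, hν, y, hy, hwk⟩ s hs
    obtain ⟨νs, hνs, hes⟩ := decomp (hc s hs)
    have hHs := hS0 s hs
    have hHs2 := ball_H (hc s hs)
    have hy2 := abs_le.1 hy
    have hHs3 := abs_le.1 hHs2
    obtain ⟨ν', hν'def⟩ : ∃ ν', ν' = ν * (ft ^ y * νs * (ft ^ y)⁻¹) := ⟨_, rfl⟩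
    have hν' : ν' ∈ WI (-(Mw : ℤ)) Mw := by
      rw [hν'def]
      exact Subgroup.mul_mem _ hν (WI_mono (by omega) (by omega) (WI_conj y hνs))
    obtain ⟨y', hy'⟩ : ∃ y', y' = y + H s := ⟨_, rfl⟩
    have hAs : VL p ^ k * ν * ft ^ y * s = VL p ^ k * ν' * ft ^ y' := by
      rw [hν'def, hy', zpow_add]
      nth_rewrite 1 [hes]
      group
    have hws : (w * s)⁻¹ * (VL p ^ k * ν' * ft ^ y') ∈ KK (2 * p) k K := by
      rw [← hAs]
      have h3 := hNk.conj_mem _ ((KK (2 * p) k K).inv_mem hwk) s⁻¹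
      have e : s⁻¹ * ((VL p ^ k * ν * ft ^ y)⁻¹ * w)⁻¹ * s⁻¹⁻¹ =
          (w * s)⁻¹ * (VL p ^ k * ν * ft ^ y * s) := by group
      rw [e] at h3
      exact h3
    by_cases hyy : |y'| ≤ (Mw : ℤ) - c
    · left
      obtain ⟨w'', hw'', hk''⟩ := hrep ν' hν' y' (by omega)
      refine ⟨w'', ⟨hw'', ν', hν', y', hyy, hk''⟩, ?_⟩
      have := (KK (2 * p) k K).mul_mem hws hk''
      have e : (w * s)⁻¹ * (VL p ^ k * ν' * ft ^ y') * ((VL p ^ k * ν' * ft ^ y')⁻¹ * w'') =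
          (w * s)⁻¹ * w'' := by group
      rw [e] at this
      exact this
    · right
      refine BK.congr hws ?_
      have hcases : (Mw : ℤ) - c < y' ∨ y' < -((Mw : ℤ) - c) := by
        by_contra hcon
        push Not at hcon
        exact hyy (abs_le.2 ⟨by omega, by omega⟩)
      rcases hcases with hpos | hneg
      · have h5 : BK (KK (2 * p) 0 K) S (VL p ^ k * (ν' * σR⁻¹) * κR) Z := by
          rw [← hmk, map_mul, map_mul, map_pow, ← hxyV]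
          exact (hall _ ⟨ν' * σR⁻¹, Subgroup.mul_mem _ hν' (Subgroup.inv_mem _ hσR), rfl⟩).1
        have h6 := BK_SF hN0 h1 hS hTa' hTt' (ft_zpow_ball (y' - p))
        have h7 := BK.mul hN0 h5 h6
        have e : VL p ^ k * (ν' * σR⁻¹) * κR * ft ^ (y' - p) = VL p ^ k * ν' * ft ^ y' := by
          rw [heR, zpow_sub]; group
        rw [e] at h7
        refine BK.mono_K hle (BK.mono h1 ?_ h7)
        have : (y' - p).natAbs ≤ β + c := by omega
        have := Nat.mul_le_mul_left T this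
        omega
      · have h5 : BK (KK (2 * p) 0 K) S (VR p ^ k * (ν' * σL⁻¹) * κL) Z := by
          rw [← hmk, map_mul, map_mul, map_pow, ← hyxV]
          exact (hall _ ⟨ν' * σL⁻¹, Subgroup.mul_mem _ hν' (Subgroup.inv_mem _ hσL), rfl⟩).2
        have h6 := BK_SF hN0 h1 hS hTa' hTt' (ft_zpow_ball (y' + p))
        have h7 := BK.mul hN0 h5 h6
        have e : VR p ^ k * (ν' * σL⁻¹) * κL * ft ^ (y' + p) = VR p ^ k * ν' * ft ^ y' := by
          rw [heL, zpow_add, zpow_neg]; group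
        rw [e] at h7
        have h8 : BK (KK (2 * p) k K) S (VR p ^ k * ν' * ft ^ y') (Z + T * (β + c)) := by
          refine BK.mono_K hle (BK.mono h1 ?_ h7)
          have : (y' + p).natAbs ≤ β + c := by omega
          have := Nat.mul_le_mul_left T this
          omega
        refine BK.congr ?_ h8
        have h9 := hNk.conj_mem _ ((KK (2 * p) k K).inv_mem (V_pow_KK hK hppos hcp k))
          (ν' * ft ^ y')⁻¹
        have e2 : (ν' * ft ^ y')⁻¹ * ((VR p ^ k)⁻¹ * VL p ^ k)⁻¹ * (ν' * ft ^ y')⁻¹⁻¹ =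
            (VL p ^ k * ν' * ft ^ y')⁻¹ * (VR p ^ k * ν' * ft ^ y') := by group
        rw [e2] at h9
        exact h9

end Pool.Agent.Y975.RD
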