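import Mathlib
import Pool.Agent.Y975.RD.Main

/-!
The limit group.
-/

set_option autoImplicit false

namespace Pool.Agent.Y975.RD

open Pool.Agent.Helper376.Lac (fa ft SF Win WinZ hF free_ext hF_fa hF_ft SF_one SF_inv SF_finite
  ball_decomp short_window ball_finite)
open Pool.Agent.Helper376.DL (Ball ball_succ ball_mono ball_add ball_mono_succ)

/-- The symmetrised set. -/
def SS (S : Finset F) : Set F := {x | x = 1 ∨ x ∈ S ∨ x⁻¹ ∈ S}

theorem SS_finite (S : Finset F) : (SS S).Finite := by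
  have h : SS S ⊆ ({1} : Set F) ∪ (S : Set F) ∪ (fun x => x⁻¹) '' (S : Set F) := by
    rintro x (h | h | h)
    · left; left; exact h
    · left; right; exact h
    · right; exact ⟨x⁻¹, h, inv_inv x⟩
  exact (((Set.finite_singleton 1).union S.finite_toSet).union (S.finite_toSet.image _)).subset h

theorem SS_one (S : Finset F) : (1 : F) ∈ SS S := Or.inl rfl

theorem SS_inv (S : Finset F) : ∀ s ∈ SS S, s⁻¹ ∈ SS S := by
  rintro s (h | h | h)
  · left; rw [h, inv_one]
  · right; right; rwa [inv_inv]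
  · right; left; exact h

/-- The set `S` generates modulo `K`. -/
def Gen (K : Subgroup F) (S : Set F) : Prop := ∃ T, BK K S fa T ∧ BK K S ft T

theorem Pocket.persist {K : Subgroup F} (hK : Good K) {S : Set F} (hfin : S.Finite) {d : ℕ}
    (hP : Pocket K S d) : ∃ ρ : ℕ, ∀ K' ≤ K, K'.Normal →
      (∀ w ∈ WI 0 ρ, w ∈ K → w ∈ K') → Pocket K' S d := by
  obtain ⟨R, z, X, hX, ⟨g0, hg0, hnot⟩, hcl⟩ := hP
  obtain ⟨c, hc⟩ := exists_c hfin
  obtain ⟨L, hL⟩ : ∃ L, L = c * (R + 1) + c * (R + z) := ⟨_, rfl⟩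
  refine ⟨2 * L, fun K' hle hN hag => ?_⟩
  have hball : ∀ w ∈ Ball SF L, w ∈ K → w ∈ K' := by
    intro w hw hwK
    have h1 := short_window hw (hF_of_H (hK.p0 w hwK))
    have h2 := Win_le _ h1
    have h3 := hag _ h2 (hK.nor.conj_mem w hwK _)
    have h5 := hN.conj_mem _ h3 (ft ^ L)⁻¹
    have e : (ft ^ L)⁻¹ * (ft ^ L * w * (ft ^ L)⁻¹) * (ft ^ L)⁻¹⁻¹ = w := by group
    rw [e] at h5
    exact h5
  refine ⟨R, z, X, hX, ⟨g0, hg0, fun h => hnot (BK.mono_K hle h)⟩, fun w hw s hs => ?_⟩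
  have hws : w * s ∈ Ball SF (c * (R + 1)) := ball_trans hc (ball_succ (hX hw) hs)
  rcases hcl w hw s hs with ⟨w', hw', hk⟩ | ⟨w', hw', hk⟩
  · left
    refine ⟨w', hw', hball _ ?_ hk⟩
    have h1 := ball_add (ball_inv hws) (ball_trans hc (hX hw'))
    refine ball_mono SF_one ?_ h1
    rw [hL]
    have := Nat.mul_le_mul_left c (Nat.le_add_right R z)
    omega
  · right
    refine ⟨w', hw', hball _ ?_ hk⟩
    have h1 := ball_add (ball_inv hws) (ball_trans hc hw')
    refine ball_mono SF_one ?_ h1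
    rw [hL]
    have := Nat.mul_le_mul_left c (Nat.le_add_left z R)
    omega

theorem step (K : Subgroup F) (hK : Good K) (ρ : ℕ) (S : Finset F) (d : ℕ) :
    ∃ K' : Subgroup F, ∃ ρ' : ℕ, Good K' ∧ K' ≤ K ∧ ρ < ρ' ∧
      (∀ w ∈ WI 0 ρ, w ∈ K → w ∈ K') ∧
      (Gen K (SS S) → ∀ K'' ≤ K', K''.Normal → (∀ w ∈ WI 0 ρ', w ∈ K' → w ∈ K'') →
        Pocket K'' (SS S) d) := by
  by_cases hgen : Gen K (SS S)
  · obtain ⟨m, k, hm, hgood, hP⟩ := pocket_exists hK (SS_finite S) (SS_one S) (SS_inv S) hgen ρ d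
    obtain ⟨ρ1, hρ1⟩ := hP.persist hgood (SS_finite S)
    refine ⟨KK m k K, max (ρ + 1) ρ1, hgood, KK_le _ _ _, by omega, ?_, ?_⟩
    · intro w hw hwK
      exact agree hK (by omega) hw hwK
    · intro _ K'' hle hN hag
      apply hρ1 K'' hle hN
      intro w hw hwK
      exact hag w (WI_mono le_rfl (by push_cast; omega) hw) hwK
  · exact ⟨K, ρ + 1, hK, le_rfl, by omega, fun w _ h => h, fun h => absurd h hgen⟩

/-- An enumeration of all pairs (finite set, depth). -/
theorem exists_enum : ∃ e : ℕ → Finset F × ℕ, Function.Surjective e := by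
  have : Countable F := by
    have : Function.Surjective (QuotientGroup.mk : F → F ⧸ (⊥ : Subgroup F)) :=
      QuotientGroup.mk_surjective
    infer_instance
  exact exists_surjective_nat _

/-- The enumeration. -/
noncomputable def enum : ℕ → Finset F × ℕ := exists_enum.choose

theorem enum_surj : Function.Surjective enum := exists_enum.choose_spec

/-- The sequence of stages. -/
noncomputable def seq : ℕ → {x : Subgroup F × ℕ // Good x.1}
  | 0 => ⟨(K0, 0), good_K0⟩
  | (i + 1) =>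
    let h := step (seq i).1.1 (seq i).2 (seq i).1.2 (enum i).1 (enum i).2
    ⟨(h.choose, h.choose_spec.choose), h.choose_spec.choose_spec.1⟩

/-- The subgroups of the sequence. -/
noncomputable def Ks (i : ℕ) : Subgroup F := (seq i).1.1
/-- The radii of the sequence. -/
noncomputable def rs (i : ℕ) : ℕ := (seq i).1.2

theorem Ks_good (i : ℕ) : Good (Ks i) := (seq i).2

theorem seq_spec (i : ℕ) : Ks (i + 1) ≤ Ks i ∧ rs i < rs (i + 1) ∧
    (∀ w ∈ WI 0 (rs i), w ∈ Ks i → w ∈ Ks (i + 1)) ∧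
      (Gen (Ks i) (SS (enum i).1) → ∀ K'' ≤ Ks (i + 1), K''.Normal →
        (∀ w ∈ WI 0 (rs (i + 1)), w ∈ Ks (i + 1) → w ∈ K'') →
        Pocket K'' (SS (enum i).1) (enum i).2) :=
  (step (seq i).1.1 (seq i).2 (seq i).1.2 (enum i).1 (enum i).2).choose_spec.choose_spec.2

theorem Ks_anti {i j : ℕ} (h : i ≤ j) : Ks j ≤ Ks i := by
  induction h with
  | refl => exact le_rfl
  | step _ ih => exact (seq_spec _).1.trans ih

theorem rs_mono {i j : ℕ} (h : i ≤ j) : rs i ≤ rs j := by
  induction h with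
  | refl => exact le_rfl
  | step _ ih => exact ih.trans (seq_spec _).2.1.le

theorem le_rs (i : ℕ) : i ≤ rs i := by
  induction i with
  | zero => exact Nat.zero_le _
  | succ i ih => exact lt_of_le_of_lt ih (seq_spec i).2.1

/-- The kernel of the limit group. -/
noncomputable def Kinf : Subgroup F := ⨅ i, Ks i

theorem mem_Kinf {w : F} : w ∈ Kinf ↔ ∀ i, w ∈ Ks i := by
  unfold Kinf; exact Subgroup.mem_iInf

theorem Kinf_le (i : ℕ) : Kinf ≤ Ks i := iInf_le _ i

theorem Kinf_agree (i : ℕ) : ∀ w ∈ WI 0 (rs i), w ∈ Ks i → w ∈ Kinf := by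
  intro w hw hwK
  have h : ∀ j, w ∈ Ks (i + j) := by
    intro j
    induction j with
    | zero => exact hwK
    | succ j ih =>
      refine (seq_spec (i + j)).2.2.1 w ?_ ih
      exact WI_mono le_rfl (by exact_mod_cast rs_mono (Nat.le_add_right i j)) hw
  rw [mem_Kinf]
  intro j
  rcases le_total i j with hij | hij
  · obtain ⟨l, rfl⟩ := Nat.exists_eq_add_of_le hij
    exact h l
  · exact Ks_anti hij hwK

instance Kinf_normal : Kinf.Normal := by
  refine ⟨fun w hw g => ?_⟩
  rw [mem_Kinf] at hw ⊢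
  intro i
  exact (Ks_good i).nor.conj_mem w (hw i) g

theorem Kinf_pocket (S : Finset F) (d : ℕ) (hgen : Gen Kinf (SS S)) : Pocket Kinf (SS S) d := by
  obtain ⟨i, hi⟩ := enum_surj (S, d)
  have h := (seq_spec i).2.2.2
  rw [hi] at h
  obtain ⟨T, h1, h2⟩ := hgen
  exact h ⟨T, h1.mono_K (Kinf_le i), h2.mono_K (Kinf_le i)⟩ Kinf (Kinf_le _) inferInstance
    (Kinf_agree (i + 1))

/-- The limit group. -/
abbrev GG : Type := F ⧸ Kinf

/-- The projection. -/
noncomputable def q : F →* GG := QuotientGroup.mk' Kinf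

theorem q_surj : Function.Surjective q := QuotientGroup.mk'_surjective Kinf

theorem q_eq_one {w : F} : q w = 1 ↔ w ∈ Kinf := QuotientGroup.eq_one_iff w

/-- First generator of the limit group. -/
noncomputable def ga : GG := q fa
/-- Second generator of the limit group. -/
noncomputable def gt : GG := q ft

theorem gen : Subgroup.closure ({ga, gt} : Set GG) = ⊤ := by
  have h1 : Subgroup.closure (Set.range (FreeGroup.of : Fin 2 → FreeGroup (Fin 2))) = ⊤ :=
    FreeGroup.closure_range_of _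
  have h2 : Subgroup.map q (Subgroup.closure (Set.range
      (FreeGroup.of : Fin 2 → FreeGroup (Fin 2)))) = ⊤ := by
    rw [h1, ← MonoidHom.range_eq_map, MonoidHom.range_eq_top]
    exact q_surj
  rw [MonoidHom.map_closure] at h2
  rw [eq_top_iff, ← h2]
  apply Subgroup.closure_mono
  rintro _ ⟨_, ⟨i, rfl⟩, rfl⟩
  fin_cases i
  · left; rfl
  · right; rfl

/-- The height on the limit group. -/
noncomputable def eta : GG →* Multiplicative ℤ :=
  QuotientGroup.lift Kinf hF (fun w hw => hF_of_H ((Ks_good 0).p0 w (Kinf_le 0 hw)))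

theorem eta_ga : eta ga = 1 := by
  change hF fa = 1
  exact hF_fa

theorem eta_gt : eta gt = Multiplicative.ofAdd 1 := by
  change hF ft = _
  exact hF_ft

theorem lamp_inj (i j : ℤ) (h : gt ^ i * ga * (gt ^ i)⁻¹ = gt ^ j * ga * (gt ^ j)⁻¹) : i = j := by
  have h1 : q (xx i * (xx j)⁻¹) = 1 := by
    rw [map_mul, map_inv, mul_inv_eq_one]
    unfold xx
    simp only [map_mul, map_zpow, map_inv]
    exact h
  rw [q_eq_one] at h1
  have h2 := (Ks_good 0).p1 _ (Kinf_le 0 h1) i
  rw [par_mul, par_xx, if_pos rfl, H_xx, sub_zero, par_inv, H_xx, add_zero, par_xx] at h2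
  by_contra hne
  rw [if_neg hne, inv_one, mul_one] at h2
  exact tau_ne h2

open Pool.Agent.Helper376.Lac (WG SG)

theorem win_finite (K : ℕ) : (((WI 0 K).map q : Subgroup GG) : Set GG).Finite := by
  obtain ⟨C, hC⟩ := (Ks_good K).p5
  refine ((ball_finite SF_finite (C * (K + 1))).image q).subset ?_
  rintro _ ⟨w, hw, rfl⟩
  obtain ⟨w', hw', hb, hk⟩ := hC K w hw
  refine ⟨w', hb, ?_⟩
  have h1 : w' * w⁻¹ ∈ Kinf := by
    refine Kinf_agree K _ ?_ hk
    exact WI_mono le_rfl (by exact_mod_cast le_rs K)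
      (Subgroup.mul_mem _ hw' (Subgroup.inv_mem _ hw))
  rw [← q_eq_one, map_mul, map_inv, mul_inv_eq_one] at h1
  exact h1

theorem WG_finite (m : ℕ) : (WG ga gt m : Set GG).Finite := by
  have h := win_finite (2 * m)
  refine (h.image (fun g => (gt ^ m)⁻¹ * g * gt ^ m)).subset ?_
  intro g hg
  have key : gt ^ m * g * (gt ^ m)⁻¹ ∈ (WI 0 (2 * m : ℕ)).map q := by
    have hg' : g ∈ WG ga gt m := hg
    unfold WG at hg'
    induction hg' using Subgroup.closure_induction with
    | mem y hy =>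
      obtain ⟨j, hj1, hj2, rfl⟩ := hy
      refine ⟨ft ^ (m : ℤ) * xx j * (ft ^ (m : ℤ))⁻¹, ?_, ?_⟩
      · rw [xx_conj]
        exact xx_mem (by omega) (by push_cast; omega)
      · unfold xx
        simp only [map_mul, map_zpow, map_inv, zpow_natCast]
        rfl
    | one => simpa using Subgroup.one_mem _
    | mul y z _ _ h1 h2 =>
      have e : gt ^ m * (y * z) * (gt ^ m)⁻¹ =
        (gt ^ m * y * (gt ^ m)⁻¹) * (gt ^ m * z * (gt ^ m)⁻¹) := by group
      rw [e]; exact Subgroup.mul_mem _ (h1 ‹_›) (h2 ‹_›)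
    | inv y _ h1 =>
      have e : gt ^ m * y⁻¹ * (gt ^ m)⁻¹ = (gt ^ m * y * (gt ^ m)⁻¹)⁻¹ := by group
      rw [e]; exact Subgroup.inv_mem _ (h1 ‹_›)
  exact ⟨_, key, by group⟩

theorem gt_inj : Function.Injective (fun j : ℤ => gt ^ j) := by
  intro i j h
  have h1 := congrArg eta h
  simp only [Pool.Agent.Helper376.Lac.eta_zpow eta eta_gt] at h1
  exact Multiplicative.ofAdd.injective h1

theorem GG_infinite : Infinite GG := Infinite.of_injective _ gt_inj

end Pool.Agent.Y975.RD
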